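import Pool.Agent.TH419.WI.Rel
import Pool.Agent.TH629.RidM

/-!
# The subspace theorem for diagonal lattices and real algebraic forms; Ridout's theorem
-/

set_option autoImplicit false

open Finset Filter Topology

namespace Pool.Agent.Q270.Gs

open Pool.Agent.TH286.GT Pool.Agent.TH419.WI

/-- the subspace theorem for diagonal lattices and real algebraic linear forms -/
theorem subR {n k : ℕ} (hn : 1 ≤ n) (g : Fin k → ℕ) (hg : ∀ v, 0 < g v)
    (L : Matrix (Fin n) (Fin n) ℝ) (hL : ∀ i j, IsAlgebraic ℚ (L i j)) (hdet : L.det ≠ 0)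
    (c γ : ℝ) (hγ : 0 < γ) (N : ℕ → ℝ) (hN : Tendsto N atTop atTop)
    (e : ℕ → Fin n → Fin k → ℕ) (A : ℕ → Fin n → ℝ) (z : ℕ → Fin n → ℤ)
    (h1 : ∀ t, ∑ l, Real.log (mon g (e t l) : ℤ) ≤ c * N t)
    (h2 : ∀ t l, 0 < A t l)
    (h3 : ∀ t l, |Real.log (A t l)| ≤ c * N t)
    (h4 : ∀ t, ∑ l, Real.log (A t l) + γ * N t ≤ ∑ l, Real.log (mon g (e t l) : ℤ))
    (h5 : ∀ t, z t ≠ 0)
    (h6 : ∀ t l, |∑ j, L l j * ((mon g (e t j) * z t j : ℤ) : ℝ)| ≤ A t l) :
    ∃ y : Fin n → ℤ, y ≠ 0 ∧ ∃ᶠ t in atTop, ∑ l, y l * (mon g (e t l) * z t l) = 0 := by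
  classical
  set F : IntermediateField ℚ ℝ :=
    IntermediateField.adjoin ℚ (Set.range fun p : Fin n × Fin n => L p.1 p.2) with hFdef
  have hF : FiniteDimensional ℚ F := by
    apply IntermediateField.finiteDimensional_adjoin
    rintro x ⟨p, rfl⟩
    exact (hL p.1 p.2).isIntegral
  have : NumberField F := { to_charZero := inferInstance, to_finiteDimensional := hF }
  let cc : Fin n × Fin n → F := fun p =>
    ⟨L p.1 p.2, IntermediateField.subset_adjoin ℚ _ ⟨p, rfl⟩⟩
  obtain ⟨Nn, hNn⟩ := IsLocalization.exist_integer_multiples_of_finite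
    (nonZeroDivisors (NumberField.RingOfIntegers F)) cc
  have hN0 : (Nn : NumberField.RingOfIntegers F) ≠ 0 := nonZeroDivisors.ne_zero Nn.2
  have hN' : ∀ i, ∃ M : NumberField.RingOfIntegers F,
      algebraMap (NumberField.RingOfIntegers F) F M
        = algebraMap (NumberField.RingOfIntegers F) F (Nn : NumberField.RingOfIntegers F)
          * cc i := by
    intro i
    obtain ⟨M, hM⟩ := hNn i
    refine ⟨M, ?_⟩
    rw [hM, Algebra.smul_def]
  choose d hd using hN'
  have hinj : Function.Injective (algebraMap (NumberField.RingOfIntegers F) F) :=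
    IsFractionRing.injective _ _
  set ψ : NumberField.RingOfIntegers F →+* ℝ :=
    (algebraMap F ℝ).comp (algebraMap (NumberField.RingOfIntegers F) F) with hψ
  set φ : NumberField.RingOfIntegers F →+* ℂ := Complex.ofRealHom.comp ψ with hφ
  set ν : ℝ := ψ (Nn : NumberField.RingOfIntegers F) with hν
  have hν0 : ν ≠ 0 := by
    intro h
    apply hN0
    apply hinj
    rw [map_zero]
    apply (algebraMap F ℝ).injective
    rw [map_zero]
    exact h
  have hνp : 0 < |ν| := abs_pos.2 hν0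
  set lν : ℝ := Real.log |ν| with hlν
  have hψd : ∀ i j, ψ (d (i, j)) = ν * L i j := by
    intro i j
    have h1 := congrArg (algebraMap F ℝ) (hd (i, j))
    rw [map_mul] at h1
    exact h1
  let M0 : Matrix (Fin n) (Fin n) (NumberField.RingOfIntegers F) := fun i j => d (i, j)
  have hM0 : M0.map ψ = ν • L := by
    ext i j
    rw [Matrix.map_apply, Matrix.smul_apply, smul_eq_mul]
    exact hψd i j
  have hdet0 : M0.det ≠ 0 := by
    intro h
    have h7 : (M0.map ψ).det = 0 := by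
      have := RingHom.map_det ψ M0
      rw [h, map_zero] at this
      rw [← RingHom.mapMatrix_apply, ← this]
    rw [hM0, Matrix.det_smul] at h7
    rcases mul_eq_zero.1 h7 with h8 | h8
    · exact pow_ne_zero _ hν0 h8
    · exact hdet h8
  have him : ∀ i j, (φ (M0 i j)).im = 0 := by
    intro i j
    rw [hφ, RingHom.comp_apply, Complex.ofRealHom_eq_coe, Complex.ofReal_im]
  have hlog : ∀ t l, Real.log (|ν| * A t l) = lν + Real.log (A t l) := fun t l =>
    Real.log_mul hνp.ne' (h2 t l).ne'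
  have hNt0 : ∀ᶠ t in atTop, |lν| ≤ N t := hN.eventually_ge_atTop _
  have hNt1 : ∀ᶠ t in atTop, n * lν / (γ / 2) ≤ N t := hN.eventually_ge_atTop _
  have hNt2 : ∀ᶠ t in atTop, 0 ≤ N t := hN.eventually_ge_atTop _
  obtain ⟨y, hy, hfr⟩ := subDiag (NumberField.RingOfIntegers F) φ hn g hg M0 hdet0 him
    (|c| + 1) (γ / 2) (by linarith [abs_nonneg c]) (by linarith) N hN e
    (fun t l => |ν| * A t l) z
    (by
      filter_upwards [hNt2] with t ht
      refine (h1 t).trans ?_
      have := le_abs_self c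
      nlinarith)
    (Eventually.of_forall fun t l => mul_pos hνp (h2 t l))
    (by
      filter_upwards [hNt0, hNt2] with t ht ht2 l
      rw [hlog]
      refine (abs_add_le _ _).trans ?_
      have e1 := h3 t l
      have e2 := le_abs_self c
      nlinarith)
    (by
      filter_upwards [hNt1] with t ht
      simp only [hlog]
      rw [Finset.sum_add_distrib, Finset.sum_const, Finset.card_univ, Fintype.card_fin,
        nsmul_eq_mul]
      rw [div_le_iff₀ (by linarith)] at ht
      have := h4 t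
      linarith)
    (Eventually.of_forall h5)
    (by
      refine Eventually.of_forall fun t l => ?_
      rw [hφ, RingHom.comp_apply, Complex.ofRealHom_eq_coe, Complex.norm_real, Real.norm_eq_abs,
        map_sum]
      have e1 : ∑ j, ψ (M0 l j * ((mon g (e t j) * z t j : ℤ) : NumberField.RingOfIntegers F))
          = ν * ∑ j, L l j * ((mon g (e t j) * z t j : ℤ) : ℝ) := by
        rw [Finset.mul_sum]
        apply Finset.sum_congr rfl
        intro j _
        rw [map_mul, map_intCast, hψd, mul_assoc]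
      rw [e1, abs_mul]
      exact mul_le_mul_of_nonneg_left (h6 t l) (abs_nonneg _))
  exact ⟨y, hy, hfr⟩

/-- the divisors of the powers of `b` are monomials -/
theorem smooth (b : ℕ) (hb : 2 ≤ b) : ∃ (k : ℕ) (g : Fin k → ℕ), (∀ v, 0 < g v) ∧
    ∀ m D : ℕ, D ∣ b ^ m → ∃ e : Fin k → ℕ, mon g e = D := by
  classical
  let s := b.primeFactors
  let E := s.equivFin
  refine ⟨s.card, fun v => (E.symm v : ℕ), ?_, ?_⟩
  · intro v
    exact (Nat.prime_of_mem_primeFactors (E.symm v).2).pos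
  · intro m D hD
    have hD0 : D ≠ 0 := by
      rintro rfl
      rw [zero_dvd_iff] at hD
      exact (pow_ne_zero m (by omega : b ≠ 0)) hD
    refine ⟨fun v => D.factorization (E.symm v), ?_⟩
    unfold mon
    have h1 : D.primeFactors ⊆ s := by
      intro p hp
      have hp' := Nat.prime_of_mem_primeFactors hp
      rw [Nat.mem_primeFactors]
      exact ⟨hp', hp'.dvd_of_dvd_pow ((Nat.dvd_of_mem_primeFactors hp).trans hD), by omega⟩
    have h2 : ∏ p ∈ s, p ^ D.factorization p = D := by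
      conv_rhs => rw [← Nat.prod_factorization_pow_eq_self hD0]
      rw [Finsupp.prod]
      symm
      apply Finset.prod_subset
      · rw [Nat.support_factorization]; exact h1
      · intro p _ hp
        rw [Finsupp.notMem_support_iff.1 hp, pow_zero]
    have h3 : ((∏ p ∈ s, p ^ D.factorization p : ℕ) : ℤ) = (D : ℤ) := by rw [h2]
    rw [← h3]
    push_cast
    rw [← Finset.prod_coe_sort s (fun p => (p : ℤ) ^ D.factorization p)]
    exact Fintype.prod_equiv E.symm _ _ (fun v => rfl)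

/-- Ridout's theorem for the powers of `b` -/
theorem ridout (α : ℝ) (hα : IsAlgebraic ℚ α) (hirr : Irrational α) (b : ℕ) (hb : 2 ≤ b)
    (m : ℕ → ℕ) (hm : Tendsto m atTop atTop) (C : ℝ) (a : ℕ → ℤ)
    (h : ∀ t, |α * (b : ℝ) ^ m t - a t| ≤ C / (b : ℝ) ^ m t) : False := by
  classical
  have hb0 : (0 : ℝ) < b := by exact_mod_cast (by omega : 0 < b)
  have hb1 : (1 : ℝ) < b := by exact_mod_cast (by omega : 1 < b)
  obtain ⟨c, hc, hcc⟩ := Pool.Agent.TH629.RidM.ridout_meas α hα hirr b.primeFactors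
    (fun ℓ hℓ => Nat.prime_of_mem_primeFactors hℓ) (1 / 2) (by norm_num)
  have hlim : Tendsto (fun t => ((b : ℝ) ^ m t) ^ ((1 : ℝ) / 2)) atTop atTop :=
    (tendsto_rpow_atTop (by norm_num)).comp ((tendsto_pow_atTop_atTop_of_one_lt hb1).comp hm)
  obtain ⟨t, ht⟩ := (hlim.eventually_gt_atTop (C / c)).exists
  set B : ℝ := (b : ℝ) ^ m t with hB
  have hBpos : 0 < B := pow_pos hb0 _
  have h1 := hcc (b ^ m t) (Nat.one_le_pow _ _ (by omega)) (b ^ m t) dvd_rfl (by
    intro ℓ hℓ hd
    rw [Nat.mem_primeFactors]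
    exact ⟨hℓ, hℓ.dvd_of_dvd_pow hd, by omega⟩) (a t)
  push_cast at h1
  rw [← hB] at h1
  have h2 := h t
  rw [← hB, mul_comm] at h2
  have h3 : B ^ ((1 : ℝ) + 1 / 2) = B * B ^ ((1 : ℝ) / 2) := by
    rw [Real.rpow_add hBpos, Real.rpow_one]
  rw [h3] at h1
  have hr : 0 < B ^ ((1 : ℝ) / 2) := Real.rpow_pos_of_pos hBpos _
  have h4 : B * B ^ ((1 : ℝ) / 2) * |B * α - a t| ≤ B ^ ((1 : ℝ) / 2) * C := by
    calc B * B ^ ((1 : ℝ) / 2) * |B * α - a t| ≤ B * B ^ ((1 : ℝ) / 2) * (C / B) :=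
          mul_le_mul_of_nonneg_left h2 (by positivity)
      _ = B ^ ((1 : ℝ) / 2) * C := by field_simp
  -- c B ≤ C B^(1/2)
  have h5 : c * B ≤ B ^ ((1 : ℝ) / 2) * C := h1.trans h4
  have h6 : B = B ^ ((1 : ℝ) / 2) * B ^ ((1 : ℝ) / 2) := by
    rw [← Real.rpow_add hBpos]; norm_num
  have h7 : c * B ^ ((1 : ℝ) / 2) ≤ C := by
    have : B ^ ((1 : ℝ) / 2) * (c * B ^ ((1 : ℝ) / 2)) ≤ B ^ ((1 : ℝ) / 2) * C := by
      calc B ^ ((1 : ℝ) / 2) * (c * B ^ ((1 : ℝ) / 2)) = c * B := by
            conv_rhs => rw [h6]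
            ring
        _ ≤ _ := h5
    exact le_of_mul_le_mul_left this hr
  rw [div_lt_iff₀ hc] at ht
  linarith

end Pool.Agent.Q270.Gs
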