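import Pool.Agent.Q270.GcdSub

/-!
# Common divisors of `b ^ m` and `⌊β ⌊α b ^ m⌋ ^ 2⌋`
-/

set_option autoImplicit false

open Finset Filter Topology

namespace Pool.Agent.Q270.Gs

open Pool.Agent.TH286.GT Pool.Agent.TH419.WI

/-- final analysis: an expression `e0 + e1 u + κ u ^ 2 = r / B ^ 2` at points `u = a / B` near an
irrational algebraic number `α`, for infinitely many powers `B` of `b` -/
theorem quad (α : ℝ) (hα : IsAlgebraic ℚ α) (hirr : Irrational α) (b : ℕ) (hb : 2 ≤ b)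
    (m : ℕ → ℕ) (hm : Tendsto m atTop atTop) (a : ℕ → ℤ)
    (ha : ∀ t, |α * (b : ℝ) ^ m t - a t| ≤ 1) (e0 e1 κ K : ℝ) (r : ℕ → ℝ) (hr : ∀ t, |r t| ≤ K)
    (h : ∀ t, e0 * ((b : ℝ) ^ m t) ^ 2 + e1 * (a t * (b : ℝ) ^ m t) + κ * (a t : ℝ) ^ 2 = r t) :
    e1 = -(2 * κ * α) ∧ e0 = κ * α ^ 2 := by
  have hb0 : (0 : ℝ) < b := by exact_mod_cast (by omega : 0 < b)
  have hb1 : (1 : ℝ) < b := by exact_mod_cast (by omega : 1 < b)
  have hBlim : Tendsto (fun t => (b : ℝ) ^ m t) atTop atTop :=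
    (tendsto_pow_atTop_atTop_of_one_lt hb1).comp hm
  -- the identity in terms of `s = α B - a`
  have hid : ∀ t, (e0 + e1 * α + κ * α ^ 2) * ((b : ℝ) ^ m t) ^ 2
      - (e1 + 2 * κ * α) * ((b : ℝ) ^ m t) * (α * (b : ℝ) ^ m t - a t)
      + κ * (α * (b : ℝ) ^ m t - a t) ^ 2 = r t := by
    intro t
    rw [← h t]; ring
  have hG : e0 + e1 * α + κ * α ^ 2 = 0 := by
    by_contra hne
    have hpos : 0 < |e0 + e1 * α + κ * α ^ 2| := abs_pos.2 hne
    obtain ⟨t, ht⟩ := (hBlim.eventually_gt_atTop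
      (max 1 ((|e1 + 2 * κ * α| + |κ| + K) / |e0 + e1 * α + κ * α ^ 2|))).exists
    obtain ⟨ht1, ht2⟩ := max_lt_iff.1 ht
    rw [div_lt_iff₀ hpos] at ht2
    set B := (b : ℝ) ^ m t with hB
    set s := α * B - a t with hs
    have e := hid t
    rw [← hB, ← hs] at e
    have hst : |s| ≤ 1 := ha t
    have h1 : |(e0 + e1 * α + κ * α ^ 2) * B ^ 2| ≤ |e1 + 2 * κ * α| * B + |κ| + K := by
      have : (e0 + e1 * α + κ * α ^ 2) * B ^ 2 = (e1 + 2 * κ * α) * B * s - κ * s ^ 2 + r t := by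
        linarith
      rw [this]
      refine (abs_add_le _ _).trans (add_le_add ((abs_sub _ _).trans (add_le_add ?_ ?_)) (hr t))
      · rw [abs_mul, abs_mul, abs_of_pos (by linarith : 0 < B)]
        have := mul_nonneg (abs_nonneg (e1 + 2 * κ * α)) (by linarith : 0 ≤ B)
        nlinarith
      · rw [abs_mul, abs_pow]
        have : |s| ^ 2 ≤ 1 := pow_le_one₀ (abs_nonneg _) hst
        nlinarith [abs_nonneg κ]
    rw [abs_mul, abs_of_nonneg (by positivity : 0 ≤ B ^ 2)] at h1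
    have hK : 0 ≤ K := (abs_nonneg _).trans (hr t)
    have h2 : |e1 + 2 * κ * α| * B + |κ| + K ≤ (|e1 + 2 * κ * α| + |κ| + K) * B := by
      nlinarith [abs_nonneg κ, abs_nonneg (e1 + 2 * κ * α)]
    have h3 : |e0 + e1 * α + κ * α ^ 2| * B ^ 2 ≤ (|e1 + 2 * κ * α| + |κ| + K) * B := h1.trans h2
    have h4 : |e0 + e1 * α + κ * α ^ 2| * B ^ 2 = (B * |e0 + e1 * α + κ * α ^ 2|) * B := by ring
    rw [h4] at h3
    have := le_of_mul_le_mul_right h3 (by linarith : 0 < B)
    linarith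
  have hG1 : e1 + 2 * κ * α = 0 := by
    by_contra hne
    have hpos : 0 < |e1 + 2 * κ * α| := abs_pos.2 hne
    apply ridout α hα hirr b hb m hm ((|κ| + K) / |e1 + 2 * κ * α|) a
    intro t
    have hBpos : 0 < (b : ℝ) ^ m t := pow_pos hb0 _
    have e := hid t
    rw [hG, zero_mul, zero_sub] at e
    set B := (b : ℝ) ^ m t with hB
    set s := α * B - a t with hs
    have hst : |s| ≤ 1 := ha t
    rw [le_div_iff₀ hBpos, le_div_iff₀ hpos]
    have h1 : s * B * (e1 + 2 * κ * α) = κ * s ^ 2 - r t := by linarith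
    have h2 : |s| * B * |e1 + 2 * κ * α| = |κ * s ^ 2 - r t| := by
      rw [← h1, abs_mul, abs_mul, abs_of_pos hBpos]
    rw [h2]
    refine (abs_sub _ _).trans (add_le_add ?_ (hr t))
    rw [abs_mul, abs_pow]
    have : |s| ^ 2 ≤ 1 := pow_le_one₀ (abs_nonneg _) hst
    nlinarith [abs_nonneg κ]
  refine ⟨by linarith, ?_⟩
  have : e1 = -(2 * κ * α) := by linarith
  rw [this] at hG
  nlinarith

/-- the numbers considered -/
theorem mainA (b : ℕ) (hb : 2 ≤ b) (α β : ℝ) (hα : IsAlgebraic ℚ α) (hα' : Irrational α)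
    (hβ : IsAlgebraic ℚ β) (hβ' : Irrational β) (ε : ℝ) (hε : 0 < ε) :
    ∃ M : ℕ, ∀ m : ℕ, M ≤ m →
      (Int.gcd ⌊β * (⌊α * (b : ℝ) ^ m⌋ : ℝ) ^ 2⌋ ((b : ℤ) ^ m) : ℝ) < (b : ℝ) ^ (ε * m) := by
  by_contra hcon
  push Not at hcon
  have hb0 : (0 : ℝ) < b := by exact_mod_cast (by omega : 0 < b)
  have hb1 : (1 : ℝ) < b := by exact_mod_cast (by omega : 1 < b)
  have hlb : 0 < Real.log b := Real.log_pos hb1
  obtain ⟨φ, hφ, hmφ⟩ := extraction_of_frequently_atTop (frequently_atTop.2 hcon)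
  have hφlim : Tendsto φ atTop atTop := hφ.tendsto_atTop
  obtain ⟨k, g, hg, hmon⟩ := smooth b hb
  -- the points
  let B : ℕ → ℝ := fun t => (b : ℝ) ^ φ t
  let a : ℕ → ℤ := fun t => ⌊α * (b : ℝ) ^ φ t⌋
  let f : ℕ → ℤ := fun t => ⌊β * (a t : ℝ) ^ 2⌋
  let D : ℕ → ℕ := fun t => Int.gcd (f t) ((b : ℤ) ^ φ t)
  have hB0 : ∀ t, 0 < B t := fun t => pow_pos hb0 _
  have hDb : ∀ t, D t ∣ b ^ φ t := by
    intro t
    have h1 : ((D t : ℕ) : ℤ) ∣ (b : ℤ) ^ φ t := Int.gcd_dvd_right _ _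
    exact_mod_cast h1
  have hDf : ∀ t, ((D t : ℕ) : ℤ) ∣ f t := fun t => Int.gcd_dvd_left _ _
  have hDε : ∀ t, (b : ℝ) ^ (ε * φ t) ≤ D t := hmφ
  choose w hw using hDf
  have hex : ∀ t, ∃ e : Fin 4 → Fin k → ℕ, mon g (e 0) = (b : ℤ) ^ (2 * φ t) ∧
      mon g (e 1) = (b : ℤ) ^ φ t ∧ mon g (e 2) = 1 ∧ mon g (e 3) = D t := by
    intro t
    obtain ⟨e0, he0⟩ := hmon (2 * φ t) (b ^ (2 * φ t)) dvd_rfl
    obtain ⟨e1, he1⟩ := hmon (φ t) (b ^ φ t) dvd_rfl
    obtain ⟨e3, he3⟩ := hmon (φ t) (D t) (hDb t)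
    refine ⟨![e0, e1, 0, e3], ?_, ?_, ?_, ?_⟩
    · simpa using he0
    · simpa using he1
    · simpa using mon_zero g
    · simpa using he3
  choose e he0 he1 he2 he3 using hex
  let L : Matrix (Fin 4) (Fin 4) ℝ :=
    !![1, 0, 0, 0; -α, 1, 0, 0; α ^ 2, -2 * α, 1, 0; 0, 0, -β, 1]
  have hL : ∀ i j, IsAlgebraic ℚ (L i j) := by
    intro i j
    fin_cases i <;> fin_cases j <;> simp [L] <;>
      first
        | exact isAlgebraic_zero
        | exact isAlgebraic_one
        | exact hα.neg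
        | exact hα.pow 2
        | exact hβ.neg
        | exact (isAlgebraic_algebraMap (2 : ℚ)).mul hα |>.neg
  have hdet : L.det ≠ 0 := by
    have : L.det = 1 := by
      simp [L, Matrix.det_succ_row_zero, Fin.sum_univ_succ, Fin.succAbove]
    rw [this]; exact one_ne_zero
  have hae : ∀ t, |α * (b : ℝ) ^ φ t - a t| ≤ 1 := by
    intro t
    rw [abs_le]
    have h1 := Int.floor_le (α * (b : ℝ) ^ φ t)
    have h2 := Int.lt_floor_add_one (α * (b : ℝ) ^ φ t)
    simp only [a]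
    constructor <;> linarith
  have hfe : ∀ t, |β * (a t : ℝ) ^ 2 - f t| ≤ 1 := by
    intro t
    rw [abs_le]
    have h1 := Int.floor_le (β * (a t : ℝ) ^ 2)
    have h2 := Int.lt_floor_add_one (β * (a t : ℝ) ^ 2)
    simp only [f]
    constructor <;> linarith
  have hDpos : ∀ t, (0 : ℝ) < D t := fun t =>
    lt_of_lt_of_le (Real.rpow_pos_of_pos hb0 _) (hDε t)
  have hlogD : ∀ t, ε * Real.log b * φ t ≤ Real.log (D t) := by
    intro t
    have h1 := Real.log_le_log (Real.rpow_pos_of_pos hb0 _) (hDε t)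
    rw [Real.log_rpow hb0] at h1
    linarith
  have hlogD2 : ∀ t, Real.log (D t) ≤ φ t * Real.log b := by
    intro t
    rw [← Real.log_pow]
    apply Real.log_le_log (hDpos t)
    have : D t ≤ b ^ φ t := Nat.le_of_dvd (Nat.pow_pos (by omega)) (hDb t)
    exact_mod_cast this
  have hs4 : ∀ t, ∑ l, Real.log (mon g (e t l) : ℤ)
      = 2 * φ t * Real.log b + φ t * Real.log b + 0 + Real.log (D t) := by
    intro t
    rw [Fin.sum_univ_four, he0, he1, he2, he3]
    push_cast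
    rw [Real.log_pow, Real.log_pow, Real.log_one]
    push_cast
    ring
  obtain ⟨y, hy0, hy⟩ := subR (by norm_num) g hg L hL hdet (4 * Real.log b) (ε * Real.log b)
    (by positivity) (fun t => (φ t : ℝ)) (tendsto_natCast_atTop_atTop.comp hφlim) e
    (fun t => ![(B t) ^ 2, B t, 1, 1]) (fun t => ![1, a t, (a t) ^ 2, w t])
    (by
      intro t
      rw [hs4]
      have := hlogD2 t
      linarith)
    (by
      intro t l
      fin_cases l <;> simp [hB0 t])
    (by
      intro t l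
      have h0 : 0 ≤ (φ t : ℝ) * Real.log b := by positivity
      have h1 : Real.log (B t) = φ t * Real.log b := Real.log_pow _ _
      fin_cases l
      · simp only [Fin.zero_eta, Matrix.cons_val_zero]
        rw [Real.log_pow, h1, abs_of_nonneg (by positivity)]
        push_cast
        linarith
      · simp only [Fin.mk_one, Matrix.cons_val]
        rw [h1, abs_of_nonneg h0]
        linarith
      · simp
        positivity
      · simp
        positivity)
    (by
      intro t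
      rw [hs4, Fin.sum_univ_four]
      have h1 : Real.log (B t) = φ t * Real.log b := Real.log_pow _ _
      simp only [Matrix.cons_val]
      rw [Real.log_pow, h1, Real.log_one]
      have := hlogD t
      push_cast
      linarith)
    (by
      intro t h
      have := congrFun h 0
      simp at this)
    (by
      intro t l
      have h1 : (B t) = (b : ℝ) ^ φ t := rfl
      have hwr : (D t : ℝ) * w t = f t := by exact_mod_cast (hw t).symm
      rw [Fin.sum_univ_four]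
      simp only [Int.cast_mul, he0, he1, he2, he3]
      fin_cases l
      · simp [L, ← h1, pow_mul']
      · simp [L, pow_mul', ← h1]
        have h2 : -(α * B t ^ 2) + B t * a t = -(B t * (α * B t - a t)) := by ring
        rw [h2, abs_neg, abs_mul, abs_of_pos (hB0 t)]
        have := hae t
        rw [← h1] at this
        nlinarith [hB0 t]
      · simp [L, pow_mul', ← h1]
        have h2 : α ^ 2 * B t ^ 2 + -(2 * α * (B t * a t)) + (a t : ℝ) ^ 2
          = (α * B t - a t) ^ 2 := by ring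
        rw [h2, abs_pow]
        have := hae t
        rw [← h1] at this
        exact pow_le_one₀ (abs_nonneg _) this
      · simp [L]
        rw [hwr]
        have h2 : -(β * (a t : ℝ) ^ 2) + f t = -(β * (a t : ℝ) ^ 2 - f t) := by ring
        rw [h2, abs_neg]
        exact hfe t)
  obtain ⟨ψ, hψ, hrel⟩ := extraction_of_frequently_atTop hy
  have hrel' : ∀ t, (y 0 : ℝ) * ((b : ℝ) ^ φ (ψ t)) ^ 2
      + y 1 * (a (ψ t) * (b : ℝ) ^ φ (ψ t)) + (y 2 + y 3 * β) * (a (ψ t) : ℝ) ^ 2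
      = y 3 * (β * (a (ψ t) : ℝ) ^ 2 - f (ψ t)) := by
    intro t
    have h1 := hrel t
    rw [Fin.sum_univ_four] at h1
    simp only [he0, he1, he2, he3, Matrix.cons_val] at h1
    have h2 : ((y 0 * ((b : ℤ) ^ (2 * φ (ψ t)) * 1) + y 1 * ((b : ℤ) ^ φ (ψ t) * a (ψ t))
      + y 2 * (1 * a (ψ t) ^ 2) + y 3 * ((D (ψ t) : ℤ) * w (ψ t)) : ℤ) : ℝ) = 0 := by
      rw [h1]; simp
    rw [← hw (ψ t)] at h2
    push_cast at h2
    rw [pow_mul'] at h2
    linarith
  obtain ⟨h1, h2⟩ := quad α hα hα' b hb (fun t => φ (ψ t)) (hφlim.comp hψ.tendsto_atTop)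
    (fun t => a (ψ t)) (fun t => hae (ψ t)) (y 0) (y 1) (y 2 + y 3 * β) |(y 3 : ℝ)|
    (fun t => y 3 * (β * (a (ψ t) : ℝ) ^ 2 - f (ψ t)))
    (fun t => by
      rw [abs_mul]
      have := hfe (ψ t)
      nlinarith [abs_nonneg (y 3 : ℝ)]) hrel'
  by_cases hκ : (y 2 : ℝ) + y 3 * β = 0
  · -- then everything vanishes
    have h3 : y 3 = 0 := by
      by_contra hne
      have hne' : (y 3 : ℝ) ≠ 0 := by exact_mod_cast hne
      apply hβ'
      refine ⟨-(y 2 : ℚ) / y 3, ?_⟩
      push_cast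
      field_simp
      linarith
    have h4 : y 2 = 0 := by
      rw [h3] at hκ
      simpa using hκ
    rw [hκ] at h1 h2
    have h5 : y 1 = 0 := by
      have : (y 1 : ℝ) = 0 := by rw [h1]; ring
      exact_mod_cast this
    have h6 : y 0 = 0 := by
      have : (y 0 : ℝ) = 0 := by rw [h2]; ring
      exact_mod_cast this
    apply hy0
    funext l
    fin_cases l
    · exact h6
    · exact h5
    · exact h4
    · exact h3
  · have hα0 : α ≠ 0 := hα'.ne_zero
    have h3 : (y 1 : ℝ) ≠ 0 := by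
      rw [h1]
      apply neg_ne_zero.2
      exact mul_ne_zero (mul_ne_zero two_ne_zero hκ) hα0
    apply hα'
    refine ⟨-(2 * y 0 : ℚ) / y 1, ?_⟩
    push_cast
    rw [div_eq_iff h3, h2, h1]
    ring

end Pool.Agent.Q270.Gs
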