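import Pool.Agent.Q270.GcdA

/-!
# Common divisors of `b ^ m` and `⌊α b ^ (k + m)⌋ ⌊β b ^ m⌋ + 1`
-/

set_option autoImplicit false

open Finset Filter Topology

namespace Pool.Agent.Q270.Gs

open Pool.Agent.TH286.GT Pool.Agent.TH419.WI

/-- the subspace theorem for vectors whose coordinates have large divisors of powers of `b` -/
theorem subB0 {n : ℕ} (hn : 1 ≤ n) (b : ℕ) (hb : 2 ≤ b)
    (L : Matrix (Fin n) (Fin n) ℝ) (hL : ∀ i j, IsAlgebraic ℚ (L i j)) (hdet : L.det ≠ 0)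
    (φ : ℕ → ℕ) (hφ : Tendsto φ atTop atTop) (M : ℕ) (D : ℕ → Fin n → ℕ)
    (hD : ∀ t l, D t l ∣ b ^ (M * φ t)) (x : ℕ → Fin n → ℤ) (hx : ∀ t l, (D t l : ℤ) ∣ x t l)
    (A : ℕ → Fin n → ℝ) (hA : ∀ t l, 0 < A t l) (c γ : ℝ)
    (hAc : ∀ t l, |Real.log (A t l)| ≤ c * φ t) (hγ : 0 < γ)
    (h4 : ∀ t, ∑ l, Real.log (A t l) + γ * φ t ≤ ∑ l, Real.log (D t l))
    (h5 : ∀ t, x t ≠ 0) (h6 : ∀ t l, |∑ j, L l j * (x t j : ℝ)| ≤ A t l) :
    ∃ y : Fin n → ℤ, y ≠ 0 ∧ ∃ᶠ t in atTop, ∑ l, y l * x t l = 0 := by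
  obtain ⟨k, g, hg, hmon⟩ := smooth b hb
  choose w hw using hx
  have hex : ∀ t l, ∃ e : Fin k → ℕ, mon g e = (D t l : ℤ) := fun t l => hmon _ _ (hD t l)
  choose e he using hex
  have hb0 : (0 : ℝ) < b := by exact_mod_cast (by omega : 0 < b)
  have hb1 : (1 : ℝ) < b := by exact_mod_cast (by omega : 1 < b)
  have hlb : 0 < Real.log b := Real.log_pos hb1
  have hD0 : ∀ t l, 0 < D t l := fun t l => Nat.pos_of_dvd_of_pos (hD t l)
    (Nat.pow_pos (by omega))
  have hlogD : ∀ t l, Real.log (D t l) ≤ M * Real.log b * φ t := by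
    intro t l
    have h1 : D t l ≤ b ^ (M * φ t) := Nat.le_of_dvd (Nat.pow_pos (by omega)) (hD t l)
    have h2 : (D t l : ℝ) ≤ (b : ℝ) ^ (M * φ t) := by exact_mod_cast h1
    have h3 := Real.log_le_log (by exact_mod_cast hD0 t l) h2
    rw [Real.log_pow] at h3
    push_cast at h3
    linarith
  obtain ⟨y, hy0, hy⟩ := subR hn g hg L hL hdet (|c| + n * (M * Real.log b)) γ hγ
    (fun t => (φ t : ℝ)) (tendsto_natCast_atTop_atTop.comp hφ) e A w
    (by
      intro t
      have h1 : ∑ l, Real.log (mon g (e t l) : ℤ) ≤ ∑ _l : Fin n, M * Real.log b * φ t := by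
        apply Finset.sum_le_sum
        intro l _
        rw [he]
        exact_mod_cast hlogD t l
      rw [Finset.sum_const, Finset.card_univ, Fintype.card_fin, nsmul_eq_mul] at h1
      have h2 : 0 ≤ |c| * φ t := by positivity
      linarith)
    hA
    (by
      intro t l
      refine (hAc t l).trans ?_
      have h1 := le_abs_self c
      have h2 : (0 : ℝ) ≤ φ t := Nat.cast_nonneg _
      have h3 : (0 : ℝ) ≤ n * (M * Real.log b) := by positivity
      nlinarith)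
    (by
      intro t
      simp only [he]
      exact_mod_cast h4 t)
    (by
      intro t h
      apply h5 t
      funext l
      rw [hw t l, h]
      simp)
    (by
      intro t l
      simp only [he, ← hw]
      exact h6 t l)
  refine ⟨y, hy0, hy.mono fun t ht => ?_⟩
  simp only [he, ← hw] at ht
  exact ht

/-- the same with constants -/
theorem subB {n : ℕ} (hn : 1 ≤ n) (b : ℕ) (hb : 2 ≤ b)
    (L : Matrix (Fin n) (Fin n) ℝ) (hL : ∀ i j, IsAlgebraic ℚ (L i j)) (hdet : L.det ≠ 0)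
    (φ : ℕ → ℕ) (hφ : Tendsto φ atTop atTop) (M : ℕ) (D : ℕ → Fin n → ℕ)
    (hD : ∀ t l, D t l ∣ b ^ (M * φ t)) (x : ℕ → Fin n → ℤ) (hx : ∀ t l, (D t l : ℤ) ∣ x t l)
    (A : ℕ → Fin n → ℝ) (hA : ∀ t l, 0 < A t l) (c c0 γ C0 : ℝ)
    (hAc : ∀ t l, |Real.log (A t l)| ≤ c * φ t + c0) (hγ : 0 < γ)
    (h4 : ∀ t, ∑ l, Real.log (A t l) + γ * φ t ≤ ∑ l, Real.log (D t l) + C0)
    (h5 : ∀ t, x t ≠ 0) (h6 : ∀ t l, |∑ j, L l j * (x t j : ℝ)| ≤ A t l) :
    ∃ y : Fin n → ℤ, y ≠ 0 ∧ ∃ᶠ t in atTop, ∑ l, y l * x t l = 0 := by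
  obtain ⟨T, hT⟩ := eventually_atTop.1 ((tendsto_natCast_atTop_atTop.comp hφ).eventually_ge_atTop
    (max 1 (C0 / (γ / 2))))
  have hT1 : ∀ t, (1 : ℝ) ≤ φ (t + T) := fun t =>
    (le_max_left _ _).trans (hT (t + T) (Nat.le_add_left _ _))
  have hT2 : ∀ t, C0 ≤ γ / 2 * φ (t + T) := by
    intro t
    have := (le_max_right _ _).trans (hT (t + T) (Nat.le_add_left _ _))
    rw [div_le_iff₀ (by linarith)] at this
    simp only [Function.comp_apply] at this
    linarith
  obtain ⟨y, hy0, hy⟩ := subB0 hn b hb L hL hdet (fun t => φ (t + T))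
    (hφ.comp (tendsto_add_atTop_nat T)) M (fun t => D (t + T)) (fun t => hD (t + T))
    (fun t => x (t + T)) (fun t => hx (t + T)) (fun t => A (t + T)) (fun t => hA (t + T))
    (c + |c0|) (γ / 2)
    (by
      intro t l
      refine (hAc (t + T) l).trans ?_
      have h1 := le_abs_self c0
      have h2 := hT1 t
      nlinarith [abs_nonneg c0])
    (by linarith)
    (by
      intro t
      have h1 := h4 (t + T)
      have h2 := hT2 t
      linarith)
    (fun t => h5 (t + T)) (fun t => h6 (t + T))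
  exact ⟨y, hy0, (tendsto_add_atTop_nat T).frequently hy⟩

/-- powers of `b` beat constants -/
lemma pow_large (b : ℕ) (hb : 2 ≤ b) (φ : ℕ → ℕ) (hφ : Tendsto φ atTop atTop) (C c : ℝ)
    (h : ∀ t, c * (b : ℝ) ^ φ t ≤ C) : c ≤ 0 := by
  by_contra hcon
  push Not at hcon
  have hb1 : (1 : ℝ) < b := by exact_mod_cast (by omega : 1 < b)
  obtain ⟨t, ht⟩ := (((tendsto_pow_atTop_atTop_of_one_lt hb1).comp hφ).eventually_gt_atTop
    (C / c)).exists
  rw [div_lt_iff₀ hcon] at ht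
  have := h t
  simp only [Function.comp_apply] at ht
  linarith

/-- the number `s = α B - a` cannot be `O (1 / B)` -/
lemma not_small (α : ℝ) (hα : IsAlgebraic ℚ α) (hirr : Irrational α) (b : ℕ) (hb : 2 ≤ b)
    (m : ℕ → ℕ) (hm : Tendsto m atTop atTop) (a : ℕ → ℤ) (c C : ℝ) (hc : c ≠ 0)
    (h : ∀ t, |c * ((α * (b : ℝ) ^ m t - a t) * (b : ℝ) ^ m t)| ≤ C) : False := by
  have hb0 : (0 : ℝ) < b := by exact_mod_cast (by omega : 0 < b)
  apply ridout α hα hirr b hb m hm (C / |c|) a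
  intro t
  have hB : 0 < (b : ℝ) ^ m t := pow_pos hb0 _
  have hc' : 0 < |c| := abs_pos.2 hc
  rw [le_div_iff₀ hB, le_div_iff₀ hc']
  have := h t
  rw [abs_mul, abs_mul, abs_of_pos hB] at this
  linarith

/-- the data: `a = ⌊α B⌋`, `c = ⌊β B⌋` up to a bounded error, `D` divides `a c + 1` and a power of
`b` -/
structure Dat (b : ℕ) (α β ε : ℝ) (φ : ℕ → ℕ) (a c : ℕ → ℤ) (D : ℕ → ℕ) : Prop where
  lim : Tendsto φ atTop atTop
  ha : ∀ t, |α * (b : ℝ) ^ φ t - a t| ≤ 1
  hc : ∀ t, |β * (b : ℝ) ^ φ t - c t| ≤ 1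
  hDb : ∀ t, D t ∣ b ^ φ t
  hDf : ∀ t, ((D t : ℕ) : ℤ) ∣ a t * c t + 1
  hDe : ∀ t, ε * Real.log b * φ t ≤ Real.log (D t)

lemma Dat.comp {b : ℕ} {α β ε : ℝ} {φ : ℕ → ℕ} {a c : ℕ → ℤ} {D : ℕ → ℕ}
    (h : Dat b α β ε φ a c D) {ψ : ℕ → ℕ} (hψ : StrictMono ψ) :
    Dat b α β ε (φ ∘ ψ) (a ∘ ψ) (c ∘ ψ) (D ∘ ψ) where
  lim := h.lim.comp hψ.tendsto_atTop
  ha _ := h.ha _
  hc _ := h.hc _
  hDb _ := h.hDb _
  hDf _ := h.hDf _
  hDe _ := h.hDe _

lemma alg_int (z : ℤ) : IsAlgebraic ℚ (z : ℝ) := isAlgebraic_intCast z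

/-- stage three: no linear relation between `B`, `a`, `c` -/
theorem stage3 (b : ℕ) (hb : 2 ≤ b) (α β ε : ℝ) (hε : 0 < ε) (hα : IsAlgebraic ℚ α)
    (hα' : Irrational α) (φ : ℕ → ℕ) (a c : ℕ → ℤ) (D : ℕ → ℕ)
    (h : Dat b α β ε φ a c D) (d0 d1 d2 : ℤ) (hd1 : d1 ≠ 0) (hd2 : d2 ≠ 0)
    (hrel : ∀ t, d0 * (b : ℤ) ^ φ t + d1 * a t + d2 * c t = 0) : False := by
  have hb0 : (0 : ℝ) < b := by exact_mod_cast (by omega : 0 < b)
  have hb1 : (1 : ℝ) < b := by exact_mod_cast (by omega : 1 < b)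
  have hlb : 0 < Real.log b := Real.log_pos hb1
  have hB0 : ∀ t, 0 < (b : ℝ) ^ φ t := fun t => pow_pos hb0 _
  have hd1r : (d1 : ℝ) ≠ 0 := by exact_mod_cast hd1
  have hd2r : (d2 : ℝ) ≠ 0 := by exact_mod_cast hd2
  have hd1a : (0 : ℝ) < |(d1 : ℝ)| := abs_pos.2 hd1r
  have hrelr : ∀ t, (d0 : ℝ) * (b : ℝ) ^ φ t + d1 * a t + d2 * c t = 0 := by
    intro t
    exact_mod_cast hrel t
  let L : Matrix (Fin 4) (Fin 4) ℝ :=
    !![1, 0, 0, 0; -α, 1, 0, 0; d1 * α ^ 2, -(d0 + 2 * d1 * α), -d2, d2; 0, 0, 0, 1]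
  have hL : ∀ i j, IsAlgebraic ℚ (L i j) := by
    have h1 : IsAlgebraic ℚ ((d1 : ℝ) * α ^ 2) := (alg_int d1).mul (hα.pow 2)
    have h2 : IsAlgebraic ℚ (-((d0 : ℝ) + 2 * d1 * α)) := by
      have h3 : IsAlgebraic ℚ (2 : ℝ) := by exact_mod_cast alg_int 2
      exact ((alg_int d0).add ((h3.mul (alg_int d1)).mul hα)).neg
    intro i j
    fin_cases i <;> fin_cases j <;> simp only [L, Matrix.of_apply] <;>
      first
        | exact isAlgebraic_zero
        | exact isAlgebraic_one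
        | exact hα.neg
        | exact h1
        | exact h2
        | exact alg_int d2
        | exact (alg_int d2).neg
  have hdet : L.det ≠ 0 := by
    have : L.det = -d2 := by
      simp [L, Matrix.det_succ_row_zero, Fin.sum_univ_succ, Fin.succAbove]
    rw [this]; exact neg_ne_zero.2 hd2r
  obtain ⟨y, hy0, hy⟩ := subB (by norm_num) b hb L hL hdet φ h.lim 2
    (fun t => ![b ^ (2 * φ t), b ^ φ t, D t, 1])
    (by
      intro t l
      fin_cases l
      · exact dvd_rfl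
      · exact pow_dvd_pow _ (by omega)
      · exact (h.hDb t).trans (pow_dvd_pow _ (by omega))
      · exact one_dvd _)
    (fun t => ![(b : ℤ) ^ (2 * φ t), (b : ℤ) ^ φ t * a t, a t * c t + 1, 1])
    (by
      intro t l
      fin_cases l
      · simp
      · simp
      · exact h.hDf t
      · simp)
    (fun t => ![((b : ℝ) ^ φ t) ^ 2, (b : ℝ) ^ φ t, |(d1 : ℝ)|, 1])
    (by
      intro t l
      fin_cases l
      · exact pow_pos (hB0 t) 2
      · exact hB0 t
      · exact hd1a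
      · exact one_pos)
    (2 * Real.log b) |Real.log (|(d1 : ℝ)|)| (ε * Real.log b) (Real.log (|(d1 : ℝ)|))
    (by
      intro t l
      have h2 := abs_nonneg (Real.log (|(d1 : ℝ)|))
      have h3 : 0 ≤ (φ t : ℝ) * Real.log b := by positivity
      fin_cases l
      · simp only [Fin.zero_eta, Matrix.cons_val]
        rw [Real.log_pow, Real.log_pow, abs_of_nonneg (by positivity)]
        push_cast
        linarith
      · simp only [Fin.mk_one, Matrix.cons_val]
        rw [Real.log_pow, abs_of_nonneg (by positivity)]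
        linarith
      · simp only [Fin.reduceFinMk, Matrix.cons_val]
        nlinarith
      · simp only [Fin.reduceFinMk, Matrix.cons_val]
        rw [Real.log_one, abs_zero]
        linarith)
    (by positivity)
    (by
      intro t
      rw [Fin.sum_univ_four, Fin.sum_univ_four]
      simp only [Matrix.cons_val]
      have h1 := h.hDe t
      push_cast
      rw [Real.log_one, Real.log_pow, Real.log_pow, Real.log_pow]
      push_cast
      linarith)
    (by
      intro t h7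
      have := congrFun h7 3
      simp at this)
    (by
      intro t l
      rw [Fin.sum_univ_four]
      have ha := h.ha t
      have hr := hrelr t
      set B := (b : ℝ) ^ φ t with hB
      have hBp : 0 < B := hB0 t
      have h2B : (b : ℝ) ^ (2 * φ t) = B ^ 2 := by rw [hB, ← pow_mul, mul_comm]
      fin_cases l
      · simp [L, ← hB, h2B]
      · simp [L, ← hB, h2B]
        have h2 : -(α * B ^ 2) + B * a t = -(B * (α * B - a t)) := by ring
        rw [h2, abs_neg, abs_mul, abs_of_pos hBp]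
        nlinarith
      · simp [L, ← hB, h2B]
        have h2 : d1 * α ^ 2 * B ^ 2 + -((d0 + 2 * d1 * α) * (B * a t)) +
            -((d2 : ℝ) * (a t * c t + 1)) + d2 = d1 * (α * B - a t) ^ 2 := by
          linear_combination (-(a t : ℝ)) * hr
        have h3 : d1 * α ^ 2 * B ^ 2 + (-(2 * d1 * α) + -(d0 : ℝ)) * (B * a t) +
            -((d2 : ℝ) * (a t * c t + 1)) + d2 = d1 * (α * B - a t) ^ 2 := by
          linear_combination (-(a t : ℝ)) * hr
        rw [h3, abs_mul, abs_pow]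
        have : |α * B - a t| ^ 2 ≤ 1 := pow_le_one₀ (abs_nonneg _) ha
        nlinarith
      · simp [L])
  obtain ⟨ψ, hψ, hr2⟩ := extraction_of_frequently_atTop hy
  have hlim := h.lim.comp hψ.tendsto_atTop
  -- the quadratic relation
  have hq : ∀ t, ((d2 * y 0 : ℤ) : ℝ) * ((b : ℝ) ^ φ (ψ t)) ^ 2
      + ((d2 * y 1 - d0 * y 2 : ℤ) : ℝ) * (a (ψ t) * (b : ℝ) ^ φ (ψ t))
      + ((-(d1 * y 2) : ℤ) : ℝ) * (a (ψ t) : ℝ) ^ 2 = ((-(d2 * y 2 + d2 * y 3) : ℤ) : ℝ) := by
    intro t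
    have e1 := hr2 t
    rw [Fin.sum_univ_four] at e1
    simp only [Matrix.cons_val] at e1
    have e2 := hrelr (ψ t)
    have e3 : ((y 0 * (b : ℤ) ^ (2 * φ (ψ t)) + y 1 * ((b : ℤ) ^ φ (ψ t) * a (ψ t))
      + y 2 * (a (ψ t) * c (ψ t) + 1) + y 3 * 1 : ℤ) : ℝ) = 0 := by rw [e1]; simp
    push_cast at e3 ⊢
    rw [pow_mul'] at e3
    linear_combination (d2 : ℝ) * e3 - (y 2 : ℝ) * (a (ψ t) : ℝ) * e2
  obtain ⟨g1, g2⟩ := quad α hα hα' b hb (fun t => φ (ψ t)) hlim (fun t => a (ψ t))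
    (fun t => h.ha (ψ t)) _ _ _ (|((-(d2 * y 2 + d2 * y 3) : ℤ) : ℝ)|)
    (fun _ => ((-(d2 * y 2 + d2 * y 3) : ℤ) : ℝ)) (fun _ => le_rfl) hq
  have hy2 : y 2 = 0 := by
    by_contra hne
    have hk : (-(d1 * y 2) : ℤ) ≠ 0 := neg_ne_zero.2 (mul_ne_zero hd1 hne)
    have hkr : (((-(d1 * y 2) : ℤ)) : ℝ) ≠ 0 := by exact_mod_cast hk
    apply hα'
    refine ⟨-((d2 * y 1 - d0 * y 2 : ℤ) : ℚ) / (2 * ((-(d1 * y 2) : ℤ) : ℚ)), ?_⟩
    have h5 : ((-((d2 * y 1 - d0 * y 2 : ℤ) : ℚ) / (2 * ((-(d1 * y 2) : ℤ) : ℚ)) : ℚ) : ℝ)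
        = -((d2 * y 1 - d0 * y 2 : ℤ) : ℝ) / (2 * ((-(d1 * y 2) : ℤ) : ℝ)) := by
      push_cast; ring
    rw [h5, g1]
    field_simp
  have hy1 : y 1 = 0 := by
    rw [hy2] at g1
    have h6 : ((d2 * y 1 : ℤ) : ℝ) = 0 := by
      push_cast at g1 ⊢
      linarith
    have h7 : d2 * y 1 = 0 := by exact_mod_cast h6
    exact (mul_eq_zero.1 h7).resolve_left hd2
  have hy00 : y 0 = 0 := by
    rw [hy2] at g2
    have h6 : ((d2 * y 0 : ℤ) : ℝ) = 0 := by
      push_cast at g2 ⊢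
      linarith
    have h7 : d2 * y 0 = 0 := by exact_mod_cast h6
    exact (mul_eq_zero.1 h7).resolve_left hd2
  have hy3 : y 3 = 0 := by
    have h8 := hq 0
    rw [hy2, hy1, hy00] at h8
    have h6 : ((d2 * y 3 : ℤ) : ℝ) = 0 := by
      push_cast at h8 ⊢
      linarith
    have h7 : d2 * y 3 = 0 := by exact_mod_cast h6
    exact (mul_eq_zero.1 h7).resolve_left hd2
  apply hy0
  funext l
  fin_cases l
  · exact hy00
  · exact hy1
  · exact hy2
  · exact hy3

lemma lin1 (α : ℝ) (hα' : Irrational α) (b : ℕ) (hb : 2 ≤ b) (φ : ℕ → ℕ)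
    (hφ : Tendsto φ atTop atTop) (a : ℕ → ℤ) (ha : ∀ t, |α * (b : ℝ) ^ φ t - a t| ≤ 1)
    (d0 d1 : ℤ) (hd1 : d1 ≠ 0) (hrel : ∀ t, d0 * (b : ℤ) ^ φ t + d1 * a t = 0) : False := by
  have hb0 : (0 : ℝ) < b := by exact_mod_cast (by omega : 0 < b)
  have h1 : |(d1 : ℝ) * α + d0| ≤ 0 := by
    apply pow_large b hb φ hφ |(d1 : ℝ)|
    intro t
    have hB : 0 < (b : ℝ) ^ φ t := pow_pos hb0 _
    have e1 : (d0 : ℝ) * (b : ℝ) ^ φ t + d1 * a t = 0 := by exact_mod_cast hrel t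
    have e2 : ((d1 : ℝ) * α + d0) * (b : ℝ) ^ φ t = d1 * (α * (b : ℝ) ^ φ t - a t) := by
      linear_combination e1
    calc |(d1 : ℝ) * α + d0| * (b : ℝ) ^ φ t = |((d1 : ℝ) * α + d0) * (b : ℝ) ^ φ t| := by
          rw [abs_mul, abs_of_pos hB]
      _ = |(d1 : ℝ)| * |α * (b : ℝ) ^ φ t - a t| := by rw [e2, abs_mul]
      _ ≤ |(d1 : ℝ)| * 1 := mul_le_mul_of_nonneg_left (ha t) (abs_nonneg _)
      _ = |(d1 : ℝ)| := mul_one _
  have h2 : (d1 : ℝ) * α + d0 = 0 := abs_nonpos_iff.1 h1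
  apply hα'
  have hd1r : (d1 : ℝ) ≠ 0 := by exact_mod_cast hd1
  refine ⟨-(d0 : ℚ) / d1, ?_⟩
  push_cast
  rw [div_eq_iff hd1r]
  linarith

/-- stage two: the numbers `α B - a` and `β B - c` cannot be almost proportional -/
theorem stage2 (b : ℕ) (hb : 2 ≤ b) (α β ε : ℝ) (hε : 0 < ε) (hα : IsAlgebraic ℚ α)
    (hα' : Irrational α) (hβ : IsAlgebraic ℚ β) (hβ' : Irrational β) (φ : ℕ → ℕ)
    (a c : ℕ → ℤ) (D : ℕ → ℕ) (h : Dat b α β ε φ a c D) (P Q K : ℝ) (hP : IsAlgebraic ℚ P)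
    (hQ : IsAlgebraic ℚ Q) (hQ0 : Q ≠ 0)
    (hs : ∀ t, |P * (α * (b : ℝ) ^ φ t - a t) + Q * (β * (b : ℝ) ^ φ t - c t)|
      * (b : ℝ) ^ φ t ≤ K) : False := by
  have hb0 : (0 : ℝ) < b := by exact_mod_cast (by omega : 0 < b)
  have hb1 : (1 : ℝ) < b := by exact_mod_cast (by omega : 1 < b)
  have hlb : 0 < Real.log b := Real.log_pos hb1
  have hB0 : ∀ t, 0 < (b : ℝ) ^ φ t := fun t => pow_pos hb0 _
  have hK0 : 0 ≤ K := (mul_nonneg (abs_nonneg _) (hB0 0).le).trans (hs 0)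
  have hK1 : 0 < K + 1 := by linarith
  let L : Matrix (Fin 3) (Fin 3) ℝ := !![1, 0, 0; -α, 1, 0; P * α + Q * β, -P, -Q]
  have hL : ∀ i j, IsAlgebraic ℚ (L i j) := by
    have h1 : IsAlgebraic ℚ (P * α + Q * β) := (hP.mul hα).add (hQ.mul hβ)
    intro i j
    fin_cases i <;> fin_cases j <;> simp only [L, Matrix.of_apply] <;>
      first
        | exact isAlgebraic_zero
        | exact isAlgebraic_one
        | exact hα.neg
        | exact h1
        | exact hP.neg
        | exact hQ.neg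
  have hdet : L.det ≠ 0 := by
    have : L.det = -Q := by
      simp [L, Matrix.det_succ_row_zero, Fin.sum_univ_succ, Fin.succAbove]
    rw [this]; exact neg_ne_zero.2 hQ0
  obtain ⟨y, hy0, hy⟩ := subB (by norm_num) b hb L hL hdet φ h.lim 1
    (fun t => ![b ^ φ t, 1, 1])
    (by
      intro t l
      fin_cases l
      · simp
      · exact one_dvd _
      · exact one_dvd _)
    (fun t => ![(b : ℤ) ^ φ t, a t, c t])
    (by
      intro t l
      fin_cases l
      · simp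
      · simp
      · simp)
    (fun t => ![(b : ℝ) ^ φ t, 1, (K + 1) / (b : ℝ) ^ φ t])
    (by
      intro t l
      fin_cases l
      · exact hB0 t
      · exact one_pos
      · exact div_pos hK1 (hB0 t))
    (Real.log b) |Real.log (K + 1)| (Real.log b) (Real.log (K + 1))
    (by
      intro t l
      have h2 := abs_nonneg (Real.log (K + 1))
      have h3 : 0 ≤ (φ t : ℝ) * Real.log b := by positivity
      fin_cases l
      · simp only [Fin.zero_eta, Matrix.cons_val]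
        rw [Real.log_pow, abs_of_nonneg (by positivity)]
        linarith
      · simp only [Fin.mk_one, Matrix.cons_val]
        rw [Real.log_one, abs_zero]
        linarith
      · simp only [Fin.reduceFinMk, Matrix.cons_val]
        rw [Real.log_div hK1.ne' (hB0 t).ne', Real.log_pow]
        refine (abs_sub _ _).trans ?_
        rw [abs_of_nonneg h3]
        linarith)
    hlb
    (by
      intro t
      rw [Fin.sum_univ_three, Fin.sum_univ_three]
      simp only [Matrix.cons_val]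
      push_cast
      rw [Real.log_one, Real.log_div hK1.ne' (hB0 t).ne', Real.log_pow]
      linarith)
    (by
      intro t h7
      have := congrFun h7 0
      simp at this
      exact absurd this.1 (by omega))
    (by
      intro t l
      rw [Fin.sum_univ_three]
      have ha := h.ha t
      have hst := hs t
      set B := (b : ℝ) ^ φ t with hB
      have hBp : 0 < B := hB0 t
      fin_cases l
      · simp [L, ← hB]
        rw [abs_of_pos hBp]
      · simp [L, ← hB]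
        rw [neg_add_eq_sub, abs_sub_comm]
        exact ha
      · simp [L, ← hB]
        rw [le_div_iff₀ hBp]
        have h2 : (P * α + Q * β) * B + -(P * a t) + -(Q * c t)
          = P * (α * B - a t) + Q * (β * B - c t) := by ring
        rw [h2]
        linarith)
  obtain ⟨ψ, hψ, hr2⟩ := extraction_of_frequently_atTop hy
  have hlim := h.lim.comp hψ.tendsto_atTop
  have hrel : ∀ t, y 0 * (b : ℤ) ^ φ (ψ t) + y 1 * a (ψ t) + y 2 * c (ψ t) = 0 := by
    intro t
    have e1 := hr2 t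
    rw [Fin.sum_univ_three] at e1
    simp only [Matrix.cons_val] at e1
    exact e1
  by_cases hy2 : y 2 = 0
  · -- a relation between `B` and `a`
    have hy1 : y 1 ≠ 0 := by
      intro hy1
      have e1 := hrel 0
      rw [hy1, hy2] at e1
      have e2 : y 0 = 0 := by
        have e3 : y 0 * (b : ℤ) ^ φ (ψ 0) = 0 := by linarith
        exact (mul_eq_zero.1 e3).resolve_right (pow_ne_zero _ (by omega))
      apply hy0
      funext l
      fin_cases l
      · exact e2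
      · exact hy1
      · exact hy2
    refine lin1 α hα' b hb (fun t => φ (ψ t)) hlim (fun t => a (ψ t)) (fun t => h.ha (ψ t)) (y 0)
      (y 1) hy1 fun t => ?_
    have e1 := hrel t
    rw [hy2] at e1
    linarith
  by_cases hy1 : y 1 = 0
  · refine lin1 β hβ' b hb (fun t => φ (ψ t)) hlim (fun t => c (ψ t)) (fun t => h.hc (ψ t)) (y 0)
      (y 2) hy2 fun t => ?_
    have e1 := hrel t
    rw [hy1] at e1
    linarith
  exact stage3 b hb α β ε hε hα hα' (φ ∘ ψ) (a ∘ ψ) (c ∘ ψ) (D ∘ ψ) (h.comp hψ) (y 0) (y 1) (y 2)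
    hy1 hy2 hrel

/-- stage one -/
theorem stage1 (b : ℕ) (hb : 2 ≤ b) (α β ε : ℝ) (hε : 0 < ε) (hα : IsAlgebraic ℚ α)
    (hα' : Irrational α) (hβ : IsAlgebraic ℚ β) (hβ' : Irrational β) (φ : ℕ → ℕ)
    (a c : ℕ → ℤ) (D : ℕ → ℕ) (h : Dat b α β ε φ a c D) : False := by
  have hb0 : (0 : ℝ) < b := by exact_mod_cast (by omega : 0 < b)
  have hb1 : (1 : ℝ) < b := by exact_mod_cast (by omega : 1 < b)
  have hlb : 0 < Real.log b := Real.log_pos hb1
  have hB0 : ∀ t, 0 < (b : ℝ) ^ φ t := fun t => pow_pos hb0 _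
  let L : Matrix (Fin 5) (Fin 5) ℝ :=
    !![1, 0, 0, 0, 0; -α, 1, 0, 0, 0; -β, 0, 1, 0, 0; α * β, -β, -α, 1, -1; 0, 0, 0, 0, 1]
  have hL : ∀ i j, IsAlgebraic ℚ (L i j) := by
    intro i j
    fin_cases i <;> fin_cases j <;> simp only [L, Matrix.of_apply] <;>
      first
        | exact isAlgebraic_zero
        | exact isAlgebraic_one
        | exact hα.neg
        | exact hβ.neg
        | exact hα.mul hβ
        | exact isAlgebraic_one.neg
  have hdet : L.det ≠ 0 := by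
    have : L.det = 1 := by
      simp [L, Matrix.det_succ_row_zero, Fin.sum_univ_succ, Fin.succAbove]
    rw [this]; exact one_ne_zero
  obtain ⟨y, hy0, hy⟩ := subB (by norm_num) b hb L hL hdet φ h.lim 2
    (fun t => ![b ^ (2 * φ t), b ^ φ t, b ^ φ t, D t, 1])
    (by
      intro t l
      fin_cases l
      · exact dvd_rfl
      · exact pow_dvd_pow _ (by omega)
      · exact pow_dvd_pow _ (by omega)
      · exact (h.hDb t).trans (pow_dvd_pow _ (by omega))
      · exact one_dvd _)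
    (fun t => ![(b : ℤ) ^ (2 * φ t), (b : ℤ) ^ φ t * a t, (b : ℤ) ^ φ t * c t,
      a t * c t + 1, 1])
    (by
      intro t l
      fin_cases l
      · simp
      · simp
      · simp
      · exact h.hDf t
      · simp)
    (fun t => ![((b : ℝ) ^ φ t) ^ 2, (b : ℝ) ^ φ t, (b : ℝ) ^ φ t, 1, 1])
    (by
      intro t l
      fin_cases l
      · exact pow_pos (hB0 t) 2
      · exact hB0 t
      · exact hB0 t
      · exact one_pos
      · exact one_pos)
    (2 * Real.log b) 0 (ε * Real.log b) 0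
    (by
      intro t l
      have h3 : 0 ≤ (φ t : ℝ) * Real.log b := by positivity
      fin_cases l
      · simp only [Fin.zero_eta, Matrix.cons_val]
        rw [Real.log_pow, Real.log_pow, abs_of_nonneg (by positivity)]
        push_cast
        linarith
      · simp only [Fin.mk_one, Matrix.cons_val]
        rw [Real.log_pow, abs_of_nonneg (by positivity)]
        linarith
      · simp only [Fin.reduceFinMk, Matrix.cons_val]
        rw [Real.log_pow, abs_of_nonneg (by positivity)]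
        linarith
      · simp only [Fin.reduceFinMk, Matrix.cons_val]
        rw [Real.log_one, abs_zero]
        linarith
      · simp only [Fin.reduceFinMk, Matrix.cons_val]
        rw [Real.log_one, abs_zero]
        linarith)
    (by positivity)
    (by
      intro t
      rw [Fin.sum_univ_five, Fin.sum_univ_five]
      simp only [Matrix.cons_val]
      have h1 := h.hDe t
      push_cast
      rw [Real.log_one, Real.log_pow, Real.log_pow, Real.log_pow]
      push_cast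
      linarith)
    (by
      intro t h7
      have := congrFun h7 4
      simp at this)
    (by
      intro t l
      rw [Fin.sum_univ_five]
      have ha := h.ha t
      have hc := h.hc t
      set B := (b : ℝ) ^ φ t with hB
      have hBp : 0 < B := hB0 t
      have h2B : (b : ℝ) ^ (2 * φ t) = B ^ 2 := by rw [hB, ← pow_mul, mul_comm]
      fin_cases l
      · simp [L, ← hB, h2B]
      · simp [L, ← hB, h2B]
        have h2 : -(α * B ^ 2) + B * a t = -(B * (α * B - a t)) := by ring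
        rw [h2, abs_neg, abs_mul, abs_of_pos hBp]
        nlinarith
      · simp [L, ← hB, h2B]
        have h2 : -(β * B ^ 2) + B * c t = -(B * (β * B - c t)) := by ring
        rw [h2, abs_neg, abs_mul, abs_of_pos hBp]
        nlinarith
      · simp [L, ← hB, h2B]
        have h2 : α * β * B ^ 2 + -(β * (B * a t)) + -(α * (B * c t)) + ((a t : ℝ) * c t + 1) + -1
          = (α * B - a t) * (β * B - c t) := by ring
        rw [h2, abs_mul]
        exact mul_le_one₀ ha (abs_nonneg _) hc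
      · simp [L])
  obtain ⟨ψ, hψ, hr2⟩ := extraction_of_frequently_atTop hy
  have hlim := h.lim.comp hψ.tendsto_atTop
  have hrel : ∀ t, (y 0 : ℝ) * ((b : ℝ) ^ φ (ψ t)) ^ 2 + y 1 * ((b : ℝ) ^ φ (ψ t) * a (ψ t))
      + y 2 * ((b : ℝ) ^ φ (ψ t) * c (ψ t)) + y 3 * ((a (ψ t) : ℝ) * c (ψ t) + 1) + y 4 = 0 := by
    intro t
    have e1 := hr2 t
    rw [Fin.sum_univ_five] at e1
    simp only [Matrix.cons_val] at e1
    have e3 : ((y 0 * (b : ℤ) ^ (2 * φ (ψ t)) + y 1 * ((b : ℤ) ^ φ (ψ t) * a (ψ t))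
      + y 2 * ((b : ℤ) ^ φ (ψ t) * c (ψ t)) + y 3 * (a (ψ t) * c (ψ t) + 1) + y 4 * 1 : ℤ) : ℝ)
        = 0 := by rw [e1]; simp
    push_cast at e3
    rw [pow_mul'] at e3
    linarith
  set G : ℝ := y 0 + y 1 * α + y 2 * β + y 3 * (α * β) with hG
  set P : ℝ := y 1 + y 3 * β with hP
  set Q : ℝ := y 2 + y 3 * α with hQ
  have hid : ∀ t, G * ((b : ℝ) ^ φ (ψ t)) ^ 2 = (P * (α * (b : ℝ) ^ φ (ψ t) - a (ψ t))
      + Q * (β * (b : ℝ) ^ φ (ψ t) - c (ψ t))) * (b : ℝ) ^ φ (ψ t)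
      - y 3 * ((α * (b : ℝ) ^ φ (ψ t) - a (ψ t)) * (β * (b : ℝ) ^ φ (ψ t) - c (ψ t)))
      - (y 3 + y 4) := by
    intro t
    have e := hrel t
    rw [hG, hP, hQ]
    linear_combination e
  have hG0 : G = 0 := by
    have h1 : |G| ≤ 0 := by
      apply pow_large b hb (fun t => φ (ψ t)) hlim (|P| + |Q| + |(y 3 : ℝ)| + |(y 3 : ℝ) + y 4|)
      intro t
      have hBp : 0 < (b : ℝ) ^ φ (ψ t) := hB0 _
      have hB1 : 1 ≤ (b : ℝ) ^ φ (ψ t) := one_le_pow₀ hb1.le
      have ha := h.ha (ψ t)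
      have hc := h.hc (ψ t)
      have e := hid t
      set B := (b : ℝ) ^ φ (ψ t) with hB
      set s := α * B - a (ψ t) with hs
      set u := β * B - c (ψ t) with hu
      have e1 : |G * B ^ 2| ≤ (|P| + |Q|) * B + |(y 3 : ℝ)| + |(y 3 : ℝ) + y 4| := by
        rw [e]
        refine (abs_sub _ _).trans (add_le_add ((abs_sub _ _).trans (add_le_add ?_ ?_)) le_rfl)
        · rw [abs_mul, abs_of_pos hBp]
          apply mul_le_mul_of_nonneg_right _ hBp.le
          refine (abs_add_le _ _).trans ?_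
          rw [abs_mul, abs_mul]
          nlinarith [abs_nonneg P, abs_nonneg Q]
        · rw [abs_mul, abs_mul]
          have : |s| * |u| ≤ 1 := mul_le_one₀ ha (abs_nonneg _) hc
          nlinarith [abs_nonneg (y 3 : ℝ)]
      rw [abs_mul, abs_of_pos (pow_pos hBp 2)] at e1
      have e2 : |(y 3 : ℝ)| + |(y 3 : ℝ) + y 4| ≤ (|(y 3 : ℝ)| + |(y 3 : ℝ) + y 4|) * B := by
        nlinarith [abs_nonneg (y 3 : ℝ), abs_nonneg ((y 3 : ℝ) + y 4)]
      have e3 : |G| * B * B ≤ (|P| + |Q| + |(y 3 : ℝ)| + |(y 3 : ℝ) + y 4|) * B := by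
        calc |G| * B * B = |G| * B ^ 2 := by ring
          _ ≤ _ := by linarith
      exact le_of_mul_le_mul_right e3 hBp
    exact abs_nonpos_iff.1 h1
  have hsm : ∀ t, |P * (α * (b : ℝ) ^ φ (ψ t) - a (ψ t)) + Q * (β * (b : ℝ) ^ φ (ψ t) - c (ψ t))|
      * (b : ℝ) ^ φ (ψ t) ≤ |(y 3 : ℝ)| + |(y 3 : ℝ) + y 4| := by
    intro t
    have hBp : 0 < (b : ℝ) ^ φ (ψ t) := hB0 _
    have ha := h.ha (ψ t)
    have hc := h.hc (ψ t)
    have e := hid t
    rw [hG0, zero_mul] at e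
    set B := (b : ℝ) ^ φ (ψ t) with hB
    set s := α * B - a (ψ t) with hs
    set u := β * B - c (ψ t) with hu
    have e1 : (P * s + Q * u) * B = y 3 * (s * u) + (y 3 + y 4) := by linarith
    have e2 : |P * s + Q * u| * B = |(y 3 : ℝ) * (s * u) + (y 3 + y 4)| := by
      rw [← e1, abs_mul, abs_of_pos hBp]
    rw [e2]
    refine (abs_add_le _ _).trans (add_le_add ?_ le_rfl)
    rw [abs_mul, abs_mul]
    have : |s| * |u| ≤ 1 := mul_le_one₀ ha (abs_nonneg _) hc
    nlinarith [abs_nonneg (y 3 : ℝ)]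
  by_cases hQ0 : Q = 0
  · have hy3 : y 3 = 0 := by
      by_contra hne
      have hne' : (y 3 : ℝ) ≠ 0 := by exact_mod_cast hne
      apply hα'
      refine ⟨-(y 2 : ℚ) / y 3, ?_⟩
      push_cast
      rw [div_eq_iff hne']
      rw [hQ] at hQ0
      linarith
    have hy2 : y 2 = 0 := by
      rw [hQ, hy3] at hQ0
      simpa using hQ0
    have hPy : P = y 1 := by rw [hP, hy3]; simp
    have hy1 : y 1 = 0 := by
      by_contra hne
      have hne' : (y 1 : ℝ) ≠ 0 := by exact_mod_cast hne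
      apply not_small α hα hα' b hb (fun t => φ (ψ t)) hlim (fun t => a (ψ t)) (y 1)
        (|(y 3 : ℝ)| + |(y 3 : ℝ) + y 4|) hne'
      intro t
      have e := hsm t
      rw [hQ0, hPy, zero_mul, add_zero] at e
      rw [← mul_assoc, abs_mul, abs_of_pos (hB0 (ψ t))]
      exact e
    have hy00 : y 0 = 0 := by
      rw [hG, hy3, hy2, hy1] at hG0
      simpa using hG0
    have hy4 : y 4 = 0 := by
      have e := hrel 0
      rw [hy00, hy1, hy2, hy3] at e
      simpa using e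
    apply hy0
    funext l
    fin_cases l
    · exact hy00
    · exact hy1
    · exact hy2
    · exact hy3
    · exact hy4
  · exact stage2 b hb α β ε hε hα hα' hβ hβ' (φ ∘ ψ) (a ∘ ψ) (c ∘ ψ) (D ∘ ψ) (h.comp hψ) P Q
      (|(y 3 : ℝ)| + |(y 3 : ℝ) + y 4|) ((alg_int _).add ((alg_int _).mul hβ))
      ((alg_int _).add ((alg_int _).mul hα)) hQ0 hsm

theorem mainB (b : ℕ) (hb : 2 ≤ b) (α β : ℝ) (hα : IsAlgebraic ℚ α) (hα' : Irrational α)
    (hβ : IsAlgebraic ℚ β) (hβ' : Irrational β) (ε : ℝ) (hε : 0 < ε) (k : ℕ) :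
    ∃ M : ℕ, ∀ m : ℕ, M ≤ m →
      (Int.gcd (⌊α * (b : ℝ) ^ (k + m)⌋ * ⌊β * (b : ℝ) ^ m⌋ + 1) ((b : ℤ) ^ m) : ℝ)
        < (b : ℝ) ^ (ε * m) := by
  by_contra hcon
  push Not at hcon
  have hb0 : (0 : ℝ) < b := by exact_mod_cast (by omega : 0 < b)
  have hb1 : (1 : ℝ) < b := by exact_mod_cast (by omega : 1 < b)
  obtain ⟨φ, hφ, hmφ⟩ := extraction_of_frequently_atTop (frequently_atTop.2 hcon)
  have hα1 : IsAlgebraic ℚ (α * (b : ℝ) ^ k) := by
    have : IsAlgebraic ℚ (b : ℝ) := by exact_mod_cast alg_int b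
    exact hα.mul (this.pow k)
  have hα2 : Irrational (α * (b : ℝ) ^ k) := by
    have h1 := hα'.mul_natCast (m := b ^ k) (pow_ne_zero _ (by omega))
    push_cast at h1
    exact h1
  apply stage1 b hb (α * (b : ℝ) ^ k) β ε hε hα1 hα2 hβ hβ' φ
    (fun t => ⌊α * (b : ℝ) ^ (k + φ t)⌋) (fun t => ⌊β * (b : ℝ) ^ φ t⌋)
    (fun t => Int.gcd (⌊α * (b : ℝ) ^ (k + φ t)⌋ * ⌊β * (b : ℝ) ^ φ t⌋ + 1) ((b : ℤ) ^ φ t))
  constructor
  · exact hφ.tendsto_atTop
  · intro t
    have e : α * (b : ℝ) ^ k * (b : ℝ) ^ φ t = α * (b : ℝ) ^ (k + φ t) := by rw [pow_add]; ring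
    rw [e, abs_le]
    have h1 := Int.floor_le (α * (b : ℝ) ^ (k + φ t))
    have h2 := Int.lt_floor_add_one (α * (b : ℝ) ^ (k + φ t))
    constructor <;> linarith
  · intro t
    rw [abs_le]
    have h1 := Int.floor_le (β * (b : ℝ) ^ φ t)
    have h2 := Int.lt_floor_add_one (β * (b : ℝ) ^ φ t)
    constructor <;> linarith
  · intro t
    have h1 : ((Int.gcd (⌊α * (b : ℝ) ^ (k + φ t)⌋ * ⌊β * (b : ℝ) ^ φ t⌋ + 1)
      ((b : ℤ) ^ φ t) : ℕ) : ℤ) ∣ (b : ℤ) ^ φ t := Int.gcd_dvd_right _ _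
    exact_mod_cast h1
  · intro t
    exact Int.gcd_dvd_left _ _
  · intro t
    have h1 := Real.log_le_log (Real.rpow_pos_of_pos hb0 _) (hmφ t)
    rw [Real.log_rpow hb0] at h1
    linarith

end Pool.Agent.Q270.Gs
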