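import Mathlib

/-!
Going up for simultaneous approximation to powers: from `(ξ, ..., ξ^n)` to `(ξ, ..., ξ^(n+1))`.
-/

set_option autoImplicit false

namespace Pool.Agent.Q270.GoUp

open Finset Filter Topology

/-- the good denominators -/
def S (ξ : ℝ) (n : ℕ) (l : ℝ) : Set ℕ :=
  {q : ℕ | 0 < q ∧ ∀ j ∈ Finset.Icc 1 n,
    |(q : ℝ) * ξ ^ j - ((round ((q : ℝ) * ξ ^ j) : ℤ) : ℝ)| ≤ (q : ℝ) ^ (-l)}

attribute [local instance] Matrix.seminormedAddCommGroup

/-- Siegel's lemma for one equation -/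
lemma siegel (n : ℕ) (hn : 1 ≤ n) (x : ℕ → ℤ) (M : ℝ) (hM : 1 ≤ M)
    (hx : ∀ i ≤ n, |(x i : ℝ)| ≤ M) :
    ∃ t : ℕ → ℤ, (∃ i ≤ n, t i ≠ 0) ∧ (∀ i, n < i → t i = 0) ∧
      ∑ i ∈ range (n + 1), t i * x i = 0 ∧
      ∀ i, |(t i : ℝ)| ≤ ((n + 1) * M) ^ (1 / (n : ℝ)) := by
  let A : Matrix (Fin 1) (Fin (n + 1)) ℤ := fun _ i => x i
  have hA : ‖A‖ ≤ M := by
    rw [Matrix.norm_le_iff (by linarith)]
    intro i j
    have := hx j (by omega)
    rw [Int.norm_eq_abs]
    exact this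
  obtain ⟨t, ht0, ht1, ht2⟩ := Int.Matrix.exists_ne_zero_int_vec_norm_le A
    (by simp; omega) (by simp)
  have hB : ‖t‖ ≤ ((n + 1) * M) ^ (1 / (n : ℝ)) := by
    refine ht2.trans ?_
    simp only [Fintype.card_fin, Nat.cast_add, Nat.cast_one, add_sub_cancel_right]
    apply Real.rpow_le_rpow
    · positivity
    · have : max 1 ‖A‖ ≤ M := max_le hM hA
      gcongr
    · positivity
  have hB0 : 0 ≤ ((n + 1) * M) ^ (1 / (n : ℝ)) := by positivity
  refine ⟨fun i => if h : i < n + 1 then t ⟨i, h⟩ else 0, ?_, ?_, ?_, ?_⟩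
  · by_contra hcon
    push Not at hcon
    apply ht0
    funext i
    have h1 := hcon i (by omega)
    rw [dif_pos i.2] at h1
    exact h1
  · intro i hi
    exact dif_neg (by omega)
  · rw [Finset.sum_range]
    have h1 := congrFun ht1 0
    simp only [Matrix.mulVec, dotProduct, A, Pi.zero_apply] at h1
    refine Eq.trans ?_ h1
    apply Finset.sum_congr rfl
    intro i _
    dsimp only
    rw [dif_pos i.2, mul_comm]
  · intro i
    dsimp only
    split_ifs with h
    · have h1 := norm_le_pi_norm t ⟨i, h⟩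
      rw [Int.norm_eq_abs] at h1
      exact h1.trans hB
    · simpa using hB0

lemma key (ξ : ℝ) (n : ℕ) (hn : 1 ≤ n) (C : ℝ) (hC1 : 1 ≤ C) (hC : ∀ i ≤ n + 1, |ξ| ^ i ≤ C)
    (q : ℕ) (hq : 1 ≤ q) (e : ℝ) (he : 0 ≤ e)
    (hS : ∀ j ∈ Finset.Icc 1 n, |(q : ℝ) * ξ ^ j - ((round ((q : ℝ) * ξ ^ j) : ℤ) : ℝ)| ≤ e)
    (B : ℝ) (hB : B = ((n + 1) * (2 * C * q)) ^ (1 / (n : ℝ)))
    (hsmall : (n + 1) * (1 + C) * (B * e) < 1) :
    ∃ a : ℕ, 1 ≤ a ∧ (a : ℝ) ≤ B ∧
      ∀ j ∈ Finset.Icc 1 (n + 1), ∃ z : ℤ,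
        |((a * q : ℕ) : ℝ) * ξ ^ j - z| ≤ (n + 1) * (1 + C) * (B * e) := by
  have hq' : (1 : ℝ) ≤ q := by exact_mod_cast hq
  set x : ℕ → ℤ := fun i => round ((q : ℝ) * ξ ^ i) with hxdef
  have hxe : ∀ i ≤ n, |(q : ℝ) * ξ ^ i - x i| ≤ e := by
    intro i hi
    rcases Nat.eq_zero_or_pos i with h0 | h0
    · subst h0
      simp [hxdef, he]
    · exact hS i (Finset.mem_Icc.2 ⟨h0, hi⟩)
  have hM1 : (1 : ℝ) ≤ 2 * C * q := by nlinarith
  have hxM : ∀ i ≤ n, |(x i : ℝ)| ≤ 2 * C * q := by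
    intro i hi
    have h1 : |(q : ℝ) * ξ ^ i - x i| ≤ 1 / 2 := abs_sub_round _
    have h2 : |(q : ℝ) * ξ ^ i| ≤ C * q := by
      rw [abs_mul, abs_pow, abs_of_nonneg (by linarith : (0 : ℝ) ≤ q), mul_comm]
      exact mul_le_mul_of_nonneg_right (hC i (by omega)) (by linarith)
    have h3 : |(x i : ℝ)| ≤ |(q : ℝ) * ξ ^ i| + |(q : ℝ) * ξ ^ i - x i| := by
      have := abs_sub_abs_le_abs_sub (x i : ℝ) ((q : ℝ) * ξ ^ i)
      rw [abs_sub_comm] at this
      linarith
    have h4 : 1 ≤ C * q := by nlinarith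
    linarith
  obtain ⟨t, ⟨i0, hi0, hti0⟩, htn, hts, htB⟩ := siegel n hn x _ hM1 hxM
  rw [← hB] at htB
  have hB0 : 0 ≤ B := (abs_nonneg _).trans (htB 0)
  -- the largest index
  obtain ⟨h, hh1, hh2, hh3⟩ : ∃ h ≤ n, t h ≠ 0 ∧ ∀ i, h < i → t i = 0 := by
    let F : Finset ℕ := (range (n + 1)).filter (fun i => t i ≠ 0)
    have hF : F.Nonempty := ⟨i0, by simp [F, hti0]; omega⟩
    have h1 := F.max'_mem hF
    rw [Finset.mem_filter] at h1
    refine ⟨F.max' hF, by have := Finset.mem_range.1 h1.1; omega, h1.2, ?_⟩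
    intro i hi
    by_contra hne
    have h2 : i ∈ F := by
      rw [Finset.mem_filter]
      refine ⟨?_, hne⟩
      by_contra h3
      exact hne (htn i (by simp at h3; omega))
    exact absurd (F.le_max' i h2) (by omega)
  set s : ℕ := n - h with hs
  -- the shifted relation
  have hrel : ∑ i ∈ range (h + 1), t i * x (s + i) = 0 := by
    have h0 : ∑ i ∈ range (h + 1), t i * x i = 0 := by
      rw [← hts]
      apply Finset.sum_subset
      · intro i hi
        simp at hi ⊢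
        omega
      · intro i _ hi
        rw [hh3 i (by simp at hi; omega), zero_mul]
    have h1 : |((∑ i ∈ range (h + 1), t i * x (s + i) : ℤ) : ℝ)| < 1 := by
      have h2 : ((∑ i ∈ range (h + 1), t i * x (s + i) : ℤ) : ℝ) =
          ∑ i ∈ range (h + 1), (t i : ℝ) *
            (ξ ^ s * (q * ξ ^ i - x i) - (q * ξ ^ (s + i) - x (s + i))) := by
        have h3 : ((∑ i ∈ range (h + 1), t i * x i : ℤ) : ℝ) = 0 := by rw [h0]; simp
        push_cast at h3 ⊢
        have h4 : ∑ i ∈ range (h + 1), (t i : ℝ) *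
            (ξ ^ s * (q * ξ ^ i - x i) - (q * ξ ^ (s + i) - x (s + i))) =
            ∑ i ∈ range (h + 1), (t i : ℝ) * x (s + i) -
              ξ ^ s * ∑ i ∈ range (h + 1), (t i : ℝ) * x i := by
          rw [Finset.mul_sum, ← Finset.sum_sub_distrib]
          apply Finset.sum_congr rfl
          intro i _
          rw [pow_add]; ring
        rw [h4, h3]; ring
      rw [h2]
      refine lt_of_le_of_lt (Finset.abs_sum_le_sum_abs _ _) ?_
      have h5 : ∀ i ∈ range (h + 1), |(t i : ℝ) *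
            (ξ ^ s * (q * ξ ^ i - x i) - (q * ξ ^ (s + i) - x (s + i)))| ≤ B * ((1 + C) * e) := by
        intro i hi
        have hi' : i ≤ h := by simp at hi; omega
        rw [abs_mul]
        apply mul_le_mul (htB i) _ (abs_nonneg _) hB0
        have h6 := hxe i (by omega)
        have h7 := hxe (s + i) (by omega)
        have h8 : |ξ ^ s * (q * ξ ^ i - x i)| ≤ C * e := by
          rw [abs_mul, abs_pow]
          exact mul_le_mul (hC s (by omega)) h6 (abs_nonneg _) (by linarith)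
        calc |ξ ^ s * (q * ξ ^ i - x i) - (q * ξ ^ (s + i) - x (s + i))|
            ≤ |ξ ^ s * (q * ξ ^ i - x i)| + |q * ξ ^ (s + i) - x (s + i)| := abs_sub _ _
          _ ≤ C * e + e := add_le_add h8 h7
          _ = (1 + C) * e := by ring
      refine lt_of_le_of_lt (Finset.sum_le_sum h5) ?_
      rw [Finset.sum_const, Finset.card_range, nsmul_eq_mul]
      have h9 : ((h + 1 : ℕ) : ℝ) ≤ n + 1 := by exact_mod_cast (by omega : h + 1 ≤ n + 1)
      have h10 : 0 ≤ B * ((1 + C) * e) := by positivity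
      calc ((h + 1 : ℕ) : ℝ) * (B * ((1 + C) * e)) ≤ (n + 1) * (B * ((1 + C) * e)) :=
            mul_le_mul_of_nonneg_right h9 h10
        _ = (n + 1) * (1 + C) * (B * e) := by ring
        _ < 1 := hsmall
    have h2 : |(∑ i ∈ range (h + 1), t i * x (s + i) : ℤ)| < 1 := by exact_mod_cast h1
    exact Int.abs_lt_one_iff.1 h2
  -- the value at ξ
  have hval : ∀ (r : ℕ), r ≤ 1 → |∑ i ∈ range (h + 1), (t i : ℝ) * (q * ξ ^ (s + i)) * ξ ^ r| ≤
      (n + 1) * C * (B * e) := by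
    intro r hr
    have h1 : ((∑ i ∈ range (h + 1), t i * x (s + i) : ℤ) : ℝ) = 0 := by rw [hrel]; simp
    push_cast at h1
    have h2 : ∑ i ∈ range (h + 1), (t i : ℝ) * (q * ξ ^ (s + i)) * ξ ^ r =
        ∑ i ∈ range (h + 1), (t i : ℝ) * (q * ξ ^ (s + i) - x (s + i)) * ξ ^ r := by
      have h3 : ∑ i ∈ range (h + 1), (t i : ℝ) * (q * ξ ^ (s + i) - x (s + i)) * ξ ^ r =
          ∑ i ∈ range (h + 1), (t i : ℝ) * (q * ξ ^ (s + i)) * ξ ^ r -
            (∑ i ∈ range (h + 1), (t i : ℝ) * x (s + i)) * ξ ^ r := by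
        rw [Finset.sum_mul, ← Finset.sum_sub_distrib]
        apply Finset.sum_congr rfl
        intro i _
        ring
      rw [h3, h1]; ring
    rw [h2]
    refine (Finset.abs_sum_le_sum_abs _ _).trans ?_
    have h5 : ∀ i ∈ range (h + 1), |(t i : ℝ) * (q * ξ ^ (s + i) - x (s + i)) * ξ ^ r| ≤
        B * e * C := by
      intro i hi
      have hi' : i ≤ h := by simp at hi; omega
      rw [abs_mul, abs_mul, abs_pow]
      have h7 := hxe (s + i) (by omega)
      exact mul_le_mul (mul_le_mul (htB i) h7 (abs_nonneg _) hB0) (hC r (by omega))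
        (by positivity) (by positivity)
    refine (Finset.sum_le_sum h5).trans ?_
    rw [Finset.sum_const, Finset.card_range, nsmul_eq_mul]
    have h9 : ((h + 1 : ℕ) : ℝ) ≤ n + 1 := by exact_mod_cast (by omega : h + 1 ≤ n + 1)
    have h10 : 0 ≤ B * e * C := by positivity
    calc ((h + 1 : ℕ) : ℝ) * (B * e * C) ≤ (n + 1) * (B * e * C) :=
          mul_le_mul_of_nonneg_right h9 h10
      _ = (n + 1) * C * (B * e) := by ring
  have hBe : 0 ≤ B * e := by positivity
  have hnat : ((t h).natAbs : ℝ) = |(t h : ℝ)| := by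
    rw [← Int.cast_natCast, Int.natCast_natAbs, Int.cast_abs]
  refine ⟨(t h).natAbs, Int.natAbs_pos.2 hh2, ?_, ?_⟩
  · rw [hnat]
    exact htB h
  · intro j hj
    rw [Finset.mem_Icc] at hj
    push_cast
    rcases Nat.lt_or_ge n j with hjn | hjn
    · have hj' : j = n + 1 := by omega
      subst hj'
      -- the new coordinate
      have h1 := hval 1 le_rfl
      rw [Finset.sum_range_succ] at h1
      have hsh : s + h = n := by omega
      rw [hsh] at h1
      have h2 : |∑ i ∈ range h, (t i : ℝ) * (q * ξ ^ (s + i) * ξ - x (s + i + 1))| ≤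
          (n + 1) * (B * e) := by
        refine (Finset.abs_sum_le_sum_abs _ _).trans ?_
        have h5 : ∀ i ∈ range h, |(t i : ℝ) * (q * ξ ^ (s + i) * ξ - x (s + i + 1))| ≤ B * e := by
          intro i hi
          have hi' : i < h := by simpa using hi
          rw [abs_mul]
          have h7 := hxe (s + i + 1) (by omega)
          have h8 : (q : ℝ) * ξ ^ (s + i) * ξ = q * ξ ^ (s + i + 1) := by rw [pow_succ]; ring
          rw [h8]
          exact mul_le_mul (htB i) h7 (abs_nonneg _) hB0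
        refine (Finset.sum_le_sum h5).trans ?_
        rw [Finset.sum_const, Finset.card_range, nsmul_eq_mul]
        have h9 : ((h : ℕ) : ℝ) ≤ n + 1 := by exact_mod_cast (by omega : h ≤ n + 1)
        exact mul_le_mul_of_nonneg_right h9 hBe
      have h3 : |(t h : ℝ) * (q * ξ ^ (n + 1)) + ((∑ i ∈ range h, t i * x (s + i + 1) : ℤ) : ℝ)| ≤
          (n + 1) * (1 + C) * (B * e) := by
        have h4 : (t h : ℝ) * (q * ξ ^ (n + 1)) + ((∑ i ∈ range h, t i * x (s + i + 1) : ℤ) : ℝ) =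
            (∑ i ∈ range h, (t i : ℝ) * (q * ξ ^ (s + i)) * ξ ^ 1 +
              (t h : ℝ) * (q * ξ ^ n) * ξ ^ 1) -
            ∑ i ∈ range h, (t i : ℝ) * (q * ξ ^ (s + i) * ξ - x (s + i + 1)) := by
          push_cast
          have h5 : ∑ i ∈ range h, (t i : ℝ) * (q * ξ ^ (s + i) * ξ - x (s + i + 1)) =
              ∑ i ∈ range h, (t i : ℝ) * (q * ξ ^ (s + i)) * ξ ^ 1 -
              ∑ i ∈ range h, (t i : ℝ) * x (s + i + 1) := by
            rw [← Finset.sum_sub_distrib]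
            apply Finset.sum_congr rfl
            intro i _
            ring
          rw [h5, pow_succ]
          ring
        rw [h4]
        refine (abs_sub _ _).trans ?_
        calc _ ≤ (n + 1) * C * (B * e) + (n + 1) * (B * e) := add_le_add h1 h2
          _ = _ := by ring
      rcases le_total 0 (t h : ℝ) with hpos | hneg
      · refine ⟨-(∑ i ∈ range h, t i * x (s + i + 1)), ?_⟩
        rw [hnat, abs_of_nonneg hpos]
        push_cast at h3 ⊢
        rw [sub_neg_eq_add, mul_assoc]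
        exact h3
      · refine ⟨∑ i ∈ range h, t i * x (s + i + 1), ?_⟩
        rw [hnat, abs_of_nonpos hneg]
        push_cast at h3 ⊢
        rw [← abs_neg] at h3
        convert h3 using 2
        ring
    · refine ⟨(t h).natAbs * x j, ?_⟩
      have h1 := hxe j hjn
      push_cast
      rw [hnat]
      have h2 : |(t h : ℝ)| * q * ξ ^ j - |(t h : ℝ)| * x j =
          |(t h : ℝ)| * (q * ξ ^ j - x j) := by ring
      have h2' : ((|t h| : ℤ) : ℝ) = |(t h : ℝ)| := by rw [Int.cast_abs]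
      rw [h2, abs_mul, abs_abs]
      calc |(t h : ℝ)| * |q * ξ ^ j - x j| ≤ B * e :=
            mul_le_mul (htB h) h1 (abs_nonneg _) hB0
        _ ≤ (n + 1) * (1 + C) * (B * e) := by
            have : (1 : ℝ) ≤ (n + 1) * (1 + C) := by nlinarith
            exact le_mul_of_one_le_left hBe this

lemma step (ξ : ℝ) (n : ℕ) (hn : 1 ≤ n) (l μ : ℝ) (hS : (S ξ n l).Infinite)
    (hμ : μ < (n * l - 1) / (n + 1)) : (S ξ (n + 1) μ).Infinite := by
  have hn' : (1 : ℝ) ≤ n := by exact_mod_cast hn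
  rcases le_or_gt μ 0 with hμ0 | hμ0
  · apply Set.infinite_of_forall_exists_gt
    intro N
    refine ⟨N + 1, ⟨by omega, ?_⟩, by omega⟩
    intro j _
    have h1 : |((N + 1 : ℕ) : ℝ) * ξ ^ j - ((round (((N + 1 : ℕ) : ℝ) * ξ ^ j) : ℤ) : ℝ)| ≤ 1 / 2 :=
      abs_sub_round _
    have h2 : (1 : ℝ) ≤ ((N + 1 : ℕ) : ℝ) ^ (-μ) :=
      Real.one_le_rpow (by push_cast; linarith [(Nat.cast_nonneg N : (0 : ℝ) ≤ N)]) (by linarith)
    linarith
  · set C : ℝ := (max 1 |ξ|) ^ (n + 1) with hCdef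
    have hC1 : 1 ≤ C := one_le_pow₀ (le_max_left _ _)
    have hC : ∀ i ≤ n + 1, |ξ| ^ i ≤ C := by
      intro i hi
      calc |ξ| ^ i ≤ (max 1 |ξ|) ^ i := pow_le_pow_left₀ (abs_nonneg _) (le_max_right _ _) _
        _ ≤ C := pow_le_pow_right₀ (le_max_left _ _) hi
    rw [lt_div_iff₀ (by linarith)] at hμ
    have hl : 1 < n * l := by nlinarith
    set K : ℝ := ((n + 1) * (2 * C)) ^ (1 / (n : ℝ)) with hK
    have hK0 : 0 < K := by positivity
    set D : ℝ := (n + 1) * (1 + C) with hD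
    have hD0 : 0 < D := by positivity
    have t1 : Tendsto (fun q : ℕ => D * K * (q : ℝ) ^ (-(l - 1 / (n : ℝ)))) atTop (𝓝 0) := by
      have h1 : 0 < l - 1 / (n : ℝ) := by
        rw [sub_pos, div_lt_iff₀ (by linarith)]
        linarith
      have := ((tendsto_rpow_neg_atTop h1).comp tendsto_natCast_atTop_atTop).const_mul (D * K)
      simpa using this
    have t2 : Tendsto (fun q : ℕ => D * K * K ^ μ *
        (q : ℝ) ^ (-(l - 1 / (n : ℝ) - μ * (1 + 1 / (n : ℝ))))) atTop (𝓝 0) := by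
      have h1 : 0 < l - 1 / (n : ℝ) - μ * (1 + 1 / (n : ℝ)) := by
        have h2 : l - 1 / (n : ℝ) - μ * (1 + 1 / (n : ℝ)) = (n * l - 1 - μ * (n + 1)) / n := by
          field_simp
        rw [h2]
        apply div_pos <;> linarith
      have := ((tendsto_rpow_neg_atTop h1).comp tendsto_natCast_atTop_atTop).const_mul
        (D * K * K ^ μ)
      simpa using this
    obtain ⟨q0, hq0⟩ := eventually_atTop.1
      ((t1.eventually (gt_mem_nhds zero_lt_one)).and (t2.eventually (gt_mem_nhds zero_lt_one)))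
    apply Set.infinite_of_forall_exists_gt
    intro N
    obtain ⟨q, hqS, hqN⟩ := hS.exists_gt (max N q0)
    have hq1 : 1 ≤ q := hqS.1
    have hqr : (0 : ℝ) < q := by exact_mod_cast hqS.1
    obtain ⟨h1, h2⟩ := hq0 q (by omega)
    have hBeq : ((n + 1) * (2 * C * q)) ^ (1 / (n : ℝ)) = K * (q : ℝ) ^ (1 / (n : ℝ)) := by
      rw [hK, ← Real.mul_rpow (by positivity) hqr.le]
      congr 1
      ring
    have hBe : (n + 1) * (1 + C) * (((n + 1) * (2 * C * q)) ^ (1 / (n : ℝ)) * (q : ℝ) ^ (-l)) =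
        D * K * (q : ℝ) ^ (-(l - 1 / (n : ℝ))) := by
      rw [hBeq, hD, neg_sub, sub_eq_add_neg, Real.rpow_add hqr]
      ring
    obtain ⟨a, ha1, haB, haj⟩ := key ξ n hn C hC1 hC q hq1 ((q : ℝ) ^ (-l)) (by positivity)
      hqS.2 _ rfl (by rw [hBe]; exact h1)
    rw [hBe] at haj
    rw [hBeq] at haB
    refine ⟨a * q, ⟨by positivity, ?_⟩, ?_⟩
    · intro j hj
      obtain ⟨z, hz⟩ := haj j hj
      refine (round_le _ z).trans (hz.trans ?_)
      have hQ : ((a * q : ℕ) : ℝ) ≤ K * (q : ℝ) ^ (1 + 1 / (n : ℝ)) := by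
        push_cast
        rw [Real.rpow_add hqr, Real.rpow_one]
        calc (a : ℝ) * q ≤ K * (q : ℝ) ^ (1 / (n : ℝ)) * q :=
              mul_le_mul_of_nonneg_right haB hqr.le
          _ = _ := by ring
      have hQ0 : (0 : ℝ) < ((a * q : ℕ) : ℝ) := by
        have : 0 < a * q := by positivity
        exact_mod_cast this
      have h3 : (K * (q : ℝ) ^ (1 + 1 / (n : ℝ))) ^ (-μ) ≤ ((a * q : ℕ) : ℝ) ^ (-μ) :=
        Real.rpow_le_rpow_of_nonpos hQ0 hQ (by linarith)
      refine le_trans ?_ h3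
      rw [Real.mul_rpow hK0.le (by positivity), ← Real.rpow_mul hqr.le, Real.rpow_neg hK0.le]
      have h4 : (q : ℝ) ^ (-(l - 1 / (n : ℝ) - μ * (1 + 1 / (n : ℝ)))) =
          (q : ℝ) ^ (-(l - 1 / (n : ℝ))) * ((q : ℝ) ^ ((1 + 1 / (n : ℝ)) * -μ))⁻¹ := by
        rw [← Real.rpow_neg hqr.le, ← Real.rpow_add hqr]
        congr 1
        ring
      rw [h4] at h2
      have h5 : 0 < (q : ℝ) ^ ((1 + 1 / (n : ℝ)) * -μ) := by positivity
      have h6 : 0 < K ^ μ := by positivity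
      have h7 : D * K * (q : ℝ) ^ (-(l - 1 / (n : ℝ))) * (K ^ μ) *
          ((q : ℝ) ^ ((1 + 1 / (n : ℝ)) * -μ))⁻¹ < 1 := by
        calc _ = D * K * K ^ μ * ((q : ℝ) ^ (-(l - 1 / (n : ℝ))) *
              ((q : ℝ) ^ ((1 + 1 / (n : ℝ)) * -μ))⁻¹) := by ring
          _ < 1 := h2
      rw [← div_eq_mul_inv, div_lt_one h5] at h7
      rw [← div_eq_inv_mul, le_div_iff₀ h6]
      exact h7.le
    · calc N < q := by omega
        _ ≤ a * q := Nat.le_mul_of_pos_left _ ha1

/-- the inequality `m λ_m ≥ n λ_n - (m - n)` -/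
theorem goUp (ξ : ℝ) (n : ℕ) (hn : 1 ≤ n) (l : ℝ) (hS : (S ξ n l).Infinite) (k : ℕ) :
    ∀ μ : ℝ, μ < (n * l - ((n + k : ℕ) : ℝ) + n) / ((n + k : ℕ) : ℝ) →
      (S ξ (n + k) μ).Infinite := by
  induction k with
  | zero =>
    intro μ hμ
    have hn' : (0 : ℝ) < n := by exact_mod_cast hn
    have hμl : μ ≤ l := by
      rw [add_zero] at hμ
      rw [lt_div_iff₀ hn'] at hμ
      have : μ * n < l * n := by linarith
      exact (lt_of_mul_lt_mul_right this hn'.le).le
    apply hS.mono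
    intro q hq
    refine ⟨hq.1, fun j hj => (hq.2 j hj).trans ?_⟩
    exact Real.rpow_le_rpow_of_exponent_le (by exact_mod_cast hq.1) (by linarith)
  | succ k ih =>
    intro μ hμ
    have hm : (0 : ℝ) < ((n + k : ℕ) : ℝ) := by exact_mod_cast (by omega : 0 < n + k)
    set m : ℕ := n + k with hmdef
    have e1 : n + (k + 1) = m + 1 := by omega
    rw [e1] at hμ ⊢
    push_cast at hμ
    rw [lt_div_iff₀ (by linarith)] at hμ
    -- an intermediate exponent
    have h1 : (μ * (m + 1) + 1) / m < (n * l - m + n) / m := by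
      apply div_lt_div_of_pos_right _ hm
      linarith
    obtain ⟨ν, hν1, hν2⟩ := exists_between h1
    apply step ξ m (by omega) ν μ (ih ν hν2)
    rw [div_lt_iff₀ hm] at hν1
    rw [lt_div_iff₀ (by linarith)]
    linarith

end Pool.Agent.Q270.GoUp
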