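import Mathlib

/-!
# The shift operator on complex sequences and exponential polynomials
-/

set_option autoImplicit false

namespace Pool.Agent.Q270.Mls

open Polynomial Filter

/-- the shift -/
def S : (ℕ → ℂ) →ₗ[ℂ] (ℕ → ℂ) where
  toFun y := fun n => y (n + 1)
  map_add' _ _ := rfl
  map_smul' _ _ := rfl

lemma S_apply (y : ℕ → ℂ) (n : ℕ) : S y n = y (n + 1) := rfl

lemma S_pow (j : ℕ) (y : ℕ → ℂ) (n : ℕ) : (S ^ j) y n = y (n + j) := by
  induction j generalizing n y with
  | zero => simp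
  | succ j ih =>
    rw [pow_succ, Module.End.mul_apply, ih, S_apply]
    congr 1

lemma aeval_S (R : ℂ[X]) (y : ℕ → ℂ) (n : ℕ) :
    (aeval S R) y n = ∑ j ∈ Finset.range (R.natDegree + 1), R.coeff j * y (n + j) := by
  rw [aeval_eq_sum_range, LinearMap.sum_apply, Finset.sum_apply]
  apply Finset.sum_congr rfl
  intro j _
  rw [LinearMap.smul_apply, Pi.smul_apply, S_pow, smul_eq_mul]

lemma aeval_S_X_sub (z : ℂ) (y : ℕ → ℂ) (n : ℕ) :
    (aeval S (X - C z)) y n = y (n + 1) - z * y n := by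
  rw [map_sub, aeval_X, aeval_C, LinearMap.sub_apply, Pi.sub_apply, S_apply,
    Module.algebraMap_end_apply, Pi.smul_apply, smul_eq_mul]

lemma aeval_S_mul (R T : ℂ[X]) (y : ℕ → ℂ) :
    (aeval S (R * T)) y = (aeval S R) ((aeval S T) y) := by
  rw [map_mul, Module.End.mul_apply]

/-- the operator sends bounded sequences to bounded sequences -/
lemma bdd_aeval (R : ℂ[X]) (y : ℕ → ℂ) (hy : ∃ B : ℝ, ∀ n, ‖y n‖ ≤ B) :
    ∃ B : ℝ, ∀ n, ‖(aeval S R) y n‖ ≤ B := by
  obtain ⟨B, hB⟩ := hy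
  refine ⟨∑ j ∈ Finset.range (R.natDegree + 1), ‖R.coeff j‖ * B, fun n => ?_⟩
  rw [aeval_S]
  refine (norm_sum_le _ _).trans (Finset.sum_le_sum fun j _ => ?_)
  rw [norm_mul]
  exact mul_le_mul_of_nonneg_left (hB _) (norm_nonneg _)

/-- the operator sends null sequences to null sequences -/
lemma tendsto_aeval (R : ℂ[X]) (y : ℕ → ℂ) (hy : Tendsto y atTop (nhds 0)) :
    Tendsto ((aeval S R) y) atTop (nhds 0) := by
  have h1 : (aeval S R) y = fun n => ∑ j ∈ Finset.range (R.natDegree + 1), R.coeff j * y (n + j) := by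
    funext n; exact aeval_S R y n
  rw [h1]
  have h2 : (0 : ℂ) = ∑ j ∈ Finset.range (R.natDegree + 1), R.coeff j * 0 := by simp
  rw [h2]
  apply tendsto_finsetSum
  intro j _
  apply Tendsto.const_mul
  exact (tendsto_add_atTop_iff_nat j).2 hy

/-- geometric sequences are eigenvectors -/
lemma aeval_geom (R : ℂ[X]) (z : ℂ) (n : ℕ) :
    (aeval S R) (fun n => z ^ n) n = R.eval z * z ^ n := by
  rw [aeval_S, eval_eq_sum_range, Finset.sum_mul]
  apply Finset.sum_congr rfl
  intro j _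
  rw [pow_add]; ring

/-- the polynomial of the first difference -/
lemma natDegree_diff (g : ℂ[X]) (k : ℕ) (hg : g.natDegree ≤ k + 1) :
    (g.comp (X + C 1) - g).natDegree ≤ k := by
  rcases Nat.eq_zero_or_pos g.natDegree with h0 | hpos
  · rw [eq_C_of_natDegree_eq_zero h0, C_comp, sub_self, natDegree_zero]
    exact Nat.zero_le _
  · have h1 : (g.comp (X + C 1)).natDegree = g.natDegree := by
      rw [natDegree_comp, natDegree_X_add_C, mul_one]
    have h2 : (g.comp (X + C 1)).leadingCoeff = g.leadingCoeff := by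
      rw [leadingCoeff_comp (by rw [natDegree_X_add_C]; exact one_ne_zero),
        leadingCoeff_X_add_C, one_pow, mul_one]
    have hg0 : g ≠ 0 := by rintro rfl; simp at hpos
    have hc0 : g.comp (X + C 1) ≠ 0 := by
      intro h
      rw [h, natDegree_zero] at h1
      omega
    by_cases hs : g.comp (X + C 1) - g = 0
    · rw [hs, natDegree_zero]; exact Nat.zero_le _
    have h3 := natDegree_lt_natDegree hs (degree_sub_lt_left (by
      rw [degree_eq_natDegree hc0, degree_eq_natDegree hg0, h1]) hc0 h2)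
    omega

lemma kill (z : ℂ) (k : ℕ) (g : ℂ[X]) (hg : g.natDegree ≤ k) :
    (aeval S ((X - C z) ^ (k + 1))) (fun n => g.eval (n : ℂ) * z ^ n) = 0 := by
  induction k generalizing g with
  | zero =>
    funext n
    rw [zero_add, pow_one, aeval_S_X_sub, eq_C_of_natDegree_le_zero hg, eval_C, eval_C,
      Pi.zero_apply]
    ring
  | succ k ih =>
    rw [pow_succ, aeval_S_mul]
    have h1 : (aeval S (X - C z)) (fun n => g.eval (n : ℂ) * z ^ n)
        = fun n : ℕ => (C z * (g.comp (X + C 1) - g)).eval (n : ℂ) * z ^ n := by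
      funext n
      rw [aeval_S_X_sub]
      simp only [eval_mul, eval_C, eval_sub, eval_comp, eval_add, eval_X]
      push_cast
      ring
    rw [h1]
    apply ih
    refine (natDegree_C_mul_le _ _).trans ?_
    exact natDegree_diff g k hg

lemma kill_of_dvd (z : ℂ) (k : ℕ) (g : ℂ[X]) (hg : g.natDegree ≤ k) (R : ℂ[X])
    (hR : (X - C z) ^ (k + 1) ∣ R) :
    (aeval S R) (fun n => g.eval (n : ℂ) * z ^ n) = 0 := by
  obtain ⟨T, rfl⟩ := hR
  rw [mul_comm, aeval_S_mul, kill z k g hg, map_zero]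

/-- an exponential polynomial -/
noncomputable def ep (Z : Finset ℂ) (g : ℂ → ℂ[X]) (n : ℕ) : ℂ :=
  ∑ z ∈ Z, (g z).eval (n : ℂ) * z ^ n

lemma kill_ep (Z : Finset ℂ) (g : ℂ → ℂ[X]) (k : ℕ) (hg : ∀ z ∈ Z, (g z).natDegree ≤ k)
    (R : ℂ[X]) (hR : ∀ z ∈ Z, (X - C z) ^ (k + 1) ∣ R) :
    (aeval S R) (ep Z g) = 0 := by
  have h1 : ep Z g = ∑ z ∈ Z, fun n : ℕ => (g z).eval (n : ℂ) * z ^ n := by
    funext n
    rw [Finset.sum_apply]; rfl
  rw [h1, map_sum]
  apply Finset.sum_eq_zero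
  intro z hz
  exact kill_of_dvd z k (g z) (hg z hz) R (hR z hz)

/-- a bounded sequence killed by a polynomial whose roots have modulus larger than one
vanishes -/
lemma bdd_zero (m : Multiset ℂ) (hm : ∀ z ∈ m, 1 < ‖z‖) (y : ℕ → ℂ)
    (hy : ∃ B : ℝ, ∀ n, ‖y n‖ ≤ B) (hk : (aeval S ((m.map fun z => X - C z).prod)) y = 0) :
    y = 0 := by
  induction m using Multiset.induction_on generalizing y with
  | empty => simpa using hk
  | cons z m ih =>
    rw [Multiset.map_cons, Multiset.prod_cons, aeval_S_mul] at hk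
    set w := (aeval S ((m.map fun z => X - C z).prod)) y with hw
    have hz : 1 < ‖z‖ := hm z (Multiset.mem_cons_self _ _)
    have h1 : ∀ n, w n = z ^ n * w 0 := by
      intro n
      induction n with
      | zero => simp
      | succ n ihn =>
        have h2 := congrFun hk n
        rw [aeval_S_X_sub, Pi.zero_apply, sub_eq_zero] at h2
        rw [h2, ihn, pow_succ]; ring
    obtain ⟨B, hB⟩ := bdd_aeval ((m.map fun z => X - C z).prod) y hy
    have h3 : w 0 = 0 := by
      by_contra hne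
      have hpos : 0 < ‖w 0‖ := norm_pos_iff.2 hne
      obtain ⟨n, hn⟩ := ((tendsto_pow_atTop_atTop_of_one_lt hz).eventually_gt_atTop
        (B / ‖w 0‖)).exists
      rw [div_lt_iff₀ hpos] at hn
      have h4 := hB n
      rw [← hw, h1 n, norm_mul, norm_pow] at h4
      linarith
    have h5 : w = 0 := by
      funext n
      rw [h1 n, h3, mul_zero, Pi.zero_apply]
    exact ih (fun x hx => hm x (Multiset.mem_cons_of_mem hx)) y hy h5

lemma ep_bdd_zero (Z : Finset ℂ) (hZ : ∀ z ∈ Z, 1 < ‖z‖) (g : ℂ → ℂ[X]) (k : ℕ)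
    (hg : ∀ z ∈ Z, (g z).natDegree ≤ k) (hb : ∃ B : ℝ, ∀ n, ‖ep Z g n‖ ≤ B) :
    ep Z g = 0 := by
  have hk := kill_ep Z g k hg (((k + 1) • Z.val).map fun z => X - C z).prod (by
    intro z hz
    rw [Multiset.map_nsmul, Multiset.prod_nsmul]
    apply pow_dvd_pow_of_dvd
    exact Multiset.dvd_prod (Multiset.mem_map_of_mem _ hz))
  refine bdd_zero ((k + 1) • Z.val) ?_ (ep Z g) hb hk
  intro z hz
  rw [Multiset.mem_nsmul] at hz
  exact hZ z hz.2

/-- a null combination of geometric sequences of modulus one is trivial -/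
lemma unit_zero (Z : Finset ℂ) (hZ : ∀ z ∈ Z, ‖z‖ = 1) (c : ℂ → ℂ)
    (h0 : Tendsto (fun n : ℕ => ∑ z ∈ Z, c z * z ^ n) atTop (nhds 0)) :
    ∀ z ∈ Z, c z = 0 := by
  classical
  intro z0 hz0
  let T : ℂ[X] := ∏ z ∈ Z.erase z0, (X - C z)
  have h1 := tendsto_aeval T _ h0
  have h2 : (aeval S T) (fun n : ℕ => ∑ z ∈ Z, c z * z ^ n)
      = fun n => c z0 * T.eval z0 * z0 ^ n := by
    have h3 : (fun n : ℕ => ∑ z ∈ Z, c z * z ^ n) = ∑ z ∈ Z, c z • (fun n : ℕ => z ^ n) := by
      funext n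
      rw [Finset.sum_apply]
      rfl
    rw [h3, map_sum]
    funext n
    rw [Finset.sum_apply, Finset.sum_eq_single_of_mem z0 hz0]
    · rw [map_smul, Pi.smul_apply, aeval_geom, smul_eq_mul]; ring
    · intro z hz hne
      rw [map_smul, Pi.smul_apply, aeval_geom]
      have : T.eval z = 0 := by
        simp only [T, eval_prod]
        apply Finset.prod_eq_zero (Finset.mem_erase.2 ⟨hne, hz⟩)
        simp
      rw [this]; simp
  rw [h2] at h1
  have h4 : T.eval z0 ≠ 0 := by
    simp only [T, eval_prod]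
    rw [Finset.prod_ne_zero_iff]
    intro z hz
    rw [Finset.mem_erase] at hz
    simp only [eval_sub, eval_X, eval_C]
    exact sub_ne_zero.2 (Ne.symm hz.1)
  have h5 : Tendsto (fun n : ℕ => ‖c z0 * T.eval z0 * z0 ^ n‖) atTop (nhds 0) := by
    simpa using h1.norm
  have h6 : (fun n : ℕ => ‖c z0 * T.eval z0 * z0 ^ n‖) = fun _ => ‖c z0 * T.eval z0‖ := by
    funext n
    rw [norm_mul, norm_pow, hZ z0 hz0, one_pow, mul_one]
  rw [h6] at h5
  have h7 := tendsto_nhds_unique tendsto_const_nhds h5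
  rw [norm_eq_zero] at h7
  exact (mul_eq_zero.1 h7).resolve_right h4

end Pool.Agent.Q270.Mls
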