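import Pool.Agent.Q270.MlsDefs
import Pool.Agent.Q270.MlsOp

/-!
# Near zero the spectrum is countable
-/

set_option autoImplicit false

namespace Pool.Agent.Q270.Mls

open Polynomial Filter

lemma distInt_nonneg (x : ℝ) : 0 ≤ distInt x := abs_nonneg _

lemma distInt_le (x : ℝ) : distInt x ≤ 1 / 2 := abs_sub_round x

lemma bddAbove_dist (x : ℕ → ℝ) : IsBoundedUnder (· ≤ ·) atTop (fun n => distInt (x n)) :=
  isBoundedUnder_of ⟨1 / 2, fun n => distInt_le (x n)⟩

lemma bddBelow_dist (x : ℕ → ℝ) : IsBoundedUnder (· ≥ ·) atTop (fun n => distInt (x n)) :=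
  isBoundedUnder_of ⟨0, fun n => distInt_nonneg (x n)⟩

lemma mem_expRoots {P : ℤ[X]} (hP : P ≠ 0) (z : ℂ) :
    z ∈ expRoots P ↔ (P.map (Int.castRingHom ℂ)).eval z = 0 ∧ 1 < ‖z‖ := by
  unfold expRoots
  have h1 : P.map (Int.castRingHom ℂ) ≠ 0 :=
    (Polynomial.map_ne_zero_iff (RingHom.injective_int _)).2 hP
  rw [Finset.mem_filter, Multiset.mem_toFinset, mem_roots h1, IsRoot.def]

lemma conj_mem {P : ℤ[X]} (hP : P ≠ 0) {z : ℂ} (hz : z ∈ expRoots P) :
    starRingEnd ℂ z ∈ expRoots P := by
  rw [mem_expRoots hP] at hz ⊢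
  constructor
  · have h1 := congrArg (starRingEnd ℂ) hz.1
    rw [map_zero, eval_map, hom_eval₂] at h1
    rw [eval_map, ← h1]
    congr 1
    ext
    simp
  · rw [RCLike.norm_conj]; exact hz.2

lemma xseq_eq {P : ℤ[X]} (hP : P ≠ 0) {k : ℕ} {g : ℂ → ℂ[X]} (hg : g ∈ Xi P k) (n : ℕ) :
    ((xseq P g n : ℝ) : ℂ) = ep (expRoots P) g n := by
  unfold xseq
  change (((ep (expRoots P) g n).re : ℝ) : ℂ) = _
  rw [← Complex.conj_eq_iff_re]
  unfold ep
  rw [map_sum]
  refine Finset.sum_bij' (fun z _ => starRingEnd ℂ z) (fun z _ => starRingEnd ℂ z)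
    (fun z hz => conj_mem hP hz) (fun z hz => conj_mem hP hz) (fun z _ => Complex.conj_conj z)
    (fun z _ => Complex.conj_conj z) ?_
  intro z hz
  rw [map_mul, map_pow, (hg z hz).2]
  congr 1
  rw [eval_map]
  conv_rhs => rw [← Complex.conj_natCast n]
  rw [eval₂_at_apply]

/-- the data determine the sequence -/
lemma rec_zero {P : ℤ[X]} (hP : P.Monic) {k : ℕ} {g : ℂ → ℂ[X]} (hg : g ∈ Xi P k) (n : ℕ) :
    ∑ j ∈ Finset.range ((P ^ (k + 1)).natDegree + 1),
      ((P ^ (k + 1)).coeff j : ℝ) * xseq P g (n + j) = 0 := by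
  have h1 := kill_ep (expRoots P) g k (fun z hz => (hg z hz).1)
    ((P ^ (k + 1)).map (Int.castRingHom ℂ)) (by
      intro z hz
      rw [Polynomial.map_pow]
      apply pow_dvd_pow_of_dvd
      rw [dvd_iff_isRoot, IsRoot.def]
      exact ((mem_expRoots hP.ne_zero z).1 hz).1)
  have h2 := congrFun h1 n
  rw [aeval_S, natDegree_map_eq_of_injective (RingHom.injective_int _), Pi.zero_apply] at h2
  apply Complex.ofReal_injective
  rw [Complex.ofReal_zero, ← h2]
  push_cast
  apply Finset.sum_congr rfl
  intro j _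
  rw [xseq_eq hP.ne_zero hg, coeff_map]
  rfl

theorem countable_near {P : ℤ[X]} (hP : P.Monic) (k : ℕ) :
    ∃ ε : ℝ, 0 < ε ∧ (spectrum P k ∩ Set.Iio ε).Countable := by
  classical
  set Q := P ^ (k + 1) with hQd
  have hQ : Q.Monic := hP.pow _
  set D := Q.natDegree with hD
  set B : ℝ := ∑ j ∈ Finset.range (D + 1), |(Q.coeff j : ℝ)| with hB
  have hB1 : 1 ≤ B := by
    have h1 : |(Q.coeff D : ℝ)| ≤ B :=
      Finset.single_le_sum (f := fun j => |(Q.coeff j : ℝ)|) (fun _ _ => abs_nonneg _)
        (Finset.mem_range.2 (Nat.lt_succ_self D))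
    have h2 : Q.coeff D = 1 := hQ
    rw [h2] at h1
    simpa using h1
  set ε : ℝ := 1 / (2 * B) with hε
  have hε0 : 0 < ε := by positivity
  refine ⟨ε, hε0, ?_⟩
  -- choose the data
  have hch : ∀ v : ↥(spectrum P k ∩ Set.Iio ε), ∃ g ∈ Xi P k, ∃ n0 : ℕ,
      limsup (fun n => distInt (xseq P g n)) atTop = v.1 ∧
        ∀ n, n0 ≤ n → distInt (xseq P g n) ≤ ε := by
    rintro ⟨v, ⟨g, hg, hv⟩, hvε⟩
    have h1 : ∀ᶠ n in atTop, distInt (xseq P g n) < ε := by
      apply eventually_lt_of_limsup_lt _ (bddAbove_dist _)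
      rw [hv]; exact hvε
    obtain ⟨n0, h0⟩ := eventually_atTop.1 h1
    exact ⟨g, hg, n0, hv, fun n hn => (h0 n hn).le⟩
  choose G hG N hlim hsmall using hch
  let c : ↥(spectrum P k ∩ Set.Iio ε) → ℕ × (Fin D → ℤ) :=
    fun v => (N v, fun j => round (xseq P (G v) (N v + j)))
  have hinj : Function.Injective c := by
    intro v v' hvv
    have hN : N v = N v' := congrArg Prod.fst hvv
    have hini : ∀ j : ℕ, j < D →
        round (xseq P (G v) (N v + j)) = round (xseq P (G v') (N v + j)) := by
      intro j hj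
      have h1 := congrFun (congrArg Prod.snd hvv) ⟨j, hj⟩
      simp only [c] at h1
      rw [h1, hN]
    -- recurrence for the nearest integers
    have hrec : ∀ (g : ℂ → ℂ[X]) (n0 : ℕ), g ∈ Xi P k →
        (∀ n, n0 ≤ n → distInt (xseq P g n) ≤ ε) → ∀ n, n0 ≤ n →
        ∑ j ∈ Finset.range (D + 1), Q.coeff j * round (xseq P g (n + j)) = 0 := by
      intro g n0 hg hs n hn
      have h1 := rec_zero hP hg n
      rw [← hQd, ← hD] at h1
      have h2 : ((∑ j ∈ Finset.range (D + 1), Q.coeff j * round (xseq P g (n + j)) : ℤ) : ℝ)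
          = -∑ j ∈ Finset.range (D + 1), (Q.coeff j : ℝ) *
            (xseq P g (n + j) - round (xseq P g (n + j))) := by
        simp only [mul_sub, Finset.sum_sub_distrib, h1]
        push_cast
        ring
      have h3 : |((∑ j ∈ Finset.range (D + 1), Q.coeff j * round (xseq P g (n + j)) : ℤ) : ℝ)|
          ≤ 1 / 2 := by
        rw [h2, abs_neg]
        refine (Finset.abs_sum_le_sum_abs _ _).trans ?_
        calc ∑ j ∈ Finset.range (D + 1), |(Q.coeff j : ℝ) *
            (xseq P g (n + j) - round (xseq P g (n + j)))|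
            ≤ ∑ j ∈ Finset.range (D + 1), |(Q.coeff j : ℝ)| * ε := by
              apply Finset.sum_le_sum
              intro j _
              rw [abs_mul]
              exact mul_le_mul_of_nonneg_left (hs (n + j) (by omega)) (abs_nonneg _)
          _ = B * ε := by rw [← Finset.sum_mul]
          _ = 1 / 2 := by rw [hε]; field_simp
      have h4 : |∑ j ∈ Finset.range (D + 1), Q.coeff j * round (xseq P g (n + j))| < 1 := by
        have : ((|∑ j ∈ Finset.range (D + 1), Q.coeff j * round (xseq P g (n + j))| : ℤ) : ℝ)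
            < ((1 : ℤ) : ℝ) := by
          rw [Int.cast_abs]
          push_cast at h3 ⊢
          linarith
        exact_mod_cast this
      exact Int.abs_lt_one_iff.1 h4
    have hstep : ∀ (g : ℂ → ℂ[X]) (n0 : ℕ), g ∈ Xi P k →
        (∀ n, n0 ≤ n → distInt (xseq P g n) ≤ ε) → ∀ n, n0 ≤ n →
        round (xseq P g (n + D)) = -∑ j ∈ Finset.range D, Q.coeff j * round (xseq P g (n + j)) := by
      intro g n0 hg hs n hn
      have h1 := hrec g n0 hg hs n hn
      rw [Finset.sum_range_succ] at h1
      have h2 : Q.coeff D = 1 := hQ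
      rw [h2, one_mul] at h1
      linarith
    have hall : ∀ m : ℕ, round (xseq P (G v) (N v + m)) = round (xseq P (G v') (N v + m)) := by
      intro m
      induction m using Nat.strong_induction_on with
      | _ m ih =>
        by_cases hm : m < D
        · exact hini m hm
        · obtain ⟨i, rfl⟩ : ∃ i, m = i + D := ⟨m - D, by omega⟩
          have e1 := hstep (G v) (N v) (hG v) (hsmall v) (N v + i) (by omega)
          have e2 := hstep (G v') (N v') (hG v') (hsmall v') (N v + i) (by omega)
          rw [← add_assoc, e1, e2]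
          congr 1
          apply Finset.sum_congr rfl
          intro j hj
          rw [Finset.mem_range] at hj
          rw [add_assoc, ih (i + j) (by omega)]
    -- the difference
    let h : ℂ → ℂ[X] := fun z => G v z - G v' z
    have hep : ∀ n, ep (expRoots P) h n = ((xseq P (G v) n - xseq P (G v') n : ℝ) : ℂ) := by
      intro n
      rw [Complex.ofReal_sub, xseq_eq hP.ne_zero (hG v), xseq_eq hP.ne_zero (hG v')]
      unfold ep
      rw [← Finset.sum_sub_distrib]
      apply Finset.sum_congr rfl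
      intro z _
      simp only [h, eval_sub]; ring
    have hbd : ∀ n, N v ≤ n → ‖ep (expRoots P) h n‖ ≤ 2 * ε := by
      intro n hn
      obtain ⟨m, rfl⟩ := Nat.exists_eq_add_of_le hn
      rw [hep, Complex.norm_real, Real.norm_eq_abs]
      have e1 := hsmall v (N v + m) (by omega)
      have e2 := hsmall v' (N v + m) (by omega)
      unfold distInt at e1 e2
      rw [hall m] at e1
      have e3 : xseq P (G v) (N v + m) - xseq P (G v') (N v + m)
        = (xseq P (G v) (N v + m) - round (xseq P (G v') (N v + m)))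
          - (xseq P (G v') (N v + m) - round (xseq P (G v') (N v + m))) := by ring
      rw [e3]
      refine (abs_sub _ _).trans ?_
      linarith
    have hzero : ep (expRoots P) h = 0 := by
      apply ep_bdd_zero (expRoots P) (fun z hz => ((mem_expRoots hP.ne_zero z).1 hz).2) h k
      · intro z hz
        exact (natDegree_sub_le _ _).trans (max_le (hG v z hz).1 (hG v' z hz).1)
      · refine ⟨2 * ε + ∑ n ∈ Finset.range (N v), ‖ep (expRoots P) h n‖, fun n => ?_⟩
        have hs0 : 0 ≤ ∑ n ∈ Finset.range (N v), ‖ep (expRoots P) h n‖ :=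
          Finset.sum_nonneg fun _ _ => norm_nonneg _
        by_cases hn : N v ≤ n
        · have := hbd n hn
          linarith
        · have : ‖ep (expRoots P) h n‖ ≤ ∑ n ∈ Finset.range (N v), ‖ep (expRoots P) h n‖ :=
            Finset.single_le_sum (f := fun n => ‖ep (expRoots P) h n‖)
              (fun _ _ => norm_nonneg _) (Finset.mem_range.2 (by omega))
          linarith
    have hx : ∀ n, xseq P (G v) n = xseq P (G v') n := by
      intro n
      have h1 := hep n
      rw [hzero, Pi.zero_apply] at h1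
      have h2 := Complex.ofReal_eq_zero.1 h1.symm
      linarith
    apply Subtype.ext
    rw [← hlim v, ← hlim v']
    congr 1
    funext n
    rw [hx n]
  exact Function.Injective.countable hinj

end Pool.Agent.Q270.Mls
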