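import Mathlib

/-!
# The multiplicative Lagrange spectrum of an integer polynomial
-/

set_option autoImplicit false

namespace Pool.Agent.Q270.Mls

open Polynomial Filter

/-- the distance to the nearest integer -/
noncomputable def distInt (x : ℝ) : ℝ := |x - round x|

/-- the expanding roots of `P`: its complex roots of modulus larger than one -/
noncomputable def expRoots (P : ℤ[X]) : Finset ℂ :=
  ((P.map (Int.castRingHom ℂ)).roots.toFinset).filter (fun z => 1 < ‖z‖)

/-- the tuples of complex polynomials of degree at most `k`, indexed by the expanding roots and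
compatible with complex conjugation -/
def Xi (P : ℤ[X]) (k : ℕ) : Set (ℂ → ℂ[X]) :=
  {g | ∀ z ∈ expRoots P, (g z).natDegree ≤ k ∧
    g (starRingEnd ℂ z) = (g z).map (starRingEnd ℂ)}

/-- the (real) sequence `x_n(g)`, the sum of `g_z(n) z ^ n` over the expanding roots `z` -/
noncomputable def xseq (P : ℤ[X]) (g : ℂ → ℂ[X]) (n : ℕ) : ℝ :=
  (∑ z ∈ expRoots P, (g z).eval (n : ℂ) * z ^ n).re

/-- the multiplicative Lagrange spectrum of order `k` -/
def spectrum (P : ℤ[X]) (k : ℕ) : Set ℝ :=
  {v | ∃ g ∈ Xi P k, limsup (fun n => distInt (xseq P g n)) atTop = v}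

end Pool.Agent.Q270.Mls
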