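import Pool.Agent.Q270.MlsTrace

/-!
# The spectrum of a non-hyperbolic polynomial is not closed
-/

set_option autoImplicit false

namespace Pool.Agent.Q270.Mls

open Polynomial Filter

lemma limsup_bounds (u : ℕ → ℝ) (h0 : ∀ n, 0 ≤ u n) (h1 : ∀ n, u n ≤ 1 / 2) (c : ℝ)
    (hc : ∀ᶠ n in atTop, u n ≤ c) (hnt : ¬ Tendsto u atTop (nhds 0)) :
    0 < limsup u atTop ∧ limsup u atTop ≤ c := by
  have hba : IsBoundedUnder (· ≤ ·) atTop u := isBoundedUnder_of ⟨1 / 2, h1⟩
  have hbb : IsBoundedUnder (· ≥ ·) atTop u := isBoundedUnder_of ⟨0, h0⟩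
  constructor
  · by_contra hcon
    push Not at hcon
    apply hnt
    apply tendsto_of_le_liminf_of_limsup_le _ hcon hba hbb
    exact le_liminf_of_le hba.isCoboundedUnder_ge (Eventually.of_forall h0)
  · exact limsup_le_of_le hbb.isCoboundedUnder_le hc

lemma zero_mem (P : ℤ[X]) (k : ℕ) : (0 : ℝ) ∈ spectrum P k := by
  refine ⟨fun _ => 0, ?_, ?_⟩
  · intro z _
    simp
  · have : (fun n => distInt (xseq P (fun _ => 0) n)) = fun _ => (0 : ℝ) := by
      funext n
      simp [distInt, xseq]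
    rw [this]
    exact limsup_const 0

lemma mul_mem {P : ℤ[X]} {k : ℕ} {v : ℝ} (hv : v ∈ spectrum P k) (m : ℕ)
    (hm : (m : ℝ) * v < 1 / 2) : (m : ℝ) * v ∈ spectrum P k := by
  rcases Nat.eq_zero_or_pos m with rfl | hm0
  · simpa using zero_mem P k
  have hmr : (0 : ℝ) < m := by exact_mod_cast hm0
  obtain ⟨g, hg, hlim⟩ := hv
  refine ⟨fun z => C (m : ℂ) * g z, ?_, ?_⟩
  · intro z hz
    refine ⟨(natDegree_C_mul_le _ _).trans (hg z hz).1, ?_⟩
    change C (m : ℂ) * g (starRingEnd ℂ z) = (C (m : ℂ) * g z).map (starRingEnd ℂ)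
    rw [(hg z hz).2, Polynomial.map_mul, map_C, Complex.conj_natCast]
  · have hx : ∀ n, xseq P (fun z => C (m : ℂ) * g z) n = m * xseq P g n := by
      intro n
      unfold xseq
      have : ∑ z ∈ expRoots P, (C (m : ℂ) * g z).eval (n : ℂ) * z ^ n
          = ((m : ℝ) : ℂ) * ∑ z ∈ expRoots P, (g z).eval (n : ℂ) * z ^ n := by
        rw [Finset.mul_sum]
        apply Finset.sum_congr rfl
        intro z _
        rw [eval_mul, eval_C]
        push_cast
        ring
      rw [this, Complex.re_ofReal_mul]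
    have hev : ∀ᶠ n in atTop, distInt (xseq P (fun z => C (m : ℂ) * g z) n)
        = m * distInt (xseq P g n) := by
      have h1 : ∀ᶠ n in atTop, distInt (xseq P g n) < 1 / (2 * m) := by
        apply eventually_lt_of_limsup_lt _ (bddAbove_dist _)
        rw [hlim, lt_div_iff₀ (by positivity)]
        linarith
      filter_upwards [h1] with n hn
      rw [lt_div_iff₀ (by positivity)] at hn
      have h2 : |(m : ℝ) * xseq P g n - ((m * round (xseq P g n) : ℤ) : ℝ)|
          = m * distInt (xseq P g n) := by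
        push_cast
        rw [← mul_sub, abs_mul, abs_of_pos hmr]
        rfl
      rw [hx, distInt_eq _ (m * round (xseq P g n)) (by rw [h2]; linarith), h2]
    rw [limsup_congr hev, ← hlim]
    have hmono : Monotone (fun x : ℝ => (m : ℝ) * x) := fun a b hab =>
      mul_le_mul_of_nonneg_left hab hmr.le
    have := hmono.map_limsup_of_continuousAt (F := atTop) (fun n => distInt (xseq P g n))
      (continuous_const.mul continuous_id).continuousAt (bddAbove_dist _)
      (bddBelow_dist _).isCoboundedUnder_le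
    exact this.symm

/-- arbitrarily small positive elements -/
theorem exists_small {P : ℤ[X]} (hP : P.Monic) (hirr : Irreducible P)
    (hexp : ∃ z : ℂ, (P.map (Int.castRingHom ℂ)).eval z = 0 ∧ 1 < ‖z‖)
    (hunit : ∃ z : ℂ, (P.map (Int.castRingHom ℂ)).eval z = 0 ∧ ‖z‖ = 1) (k : ℕ)
    (η : ℝ) (hη : 0 < η) : ∃ v ∈ spectrum P k, 0 < v ∧ v < η := by
  classical
  set Z := (P.map (Int.castRingHom ℂ)).roots.toFinset with hZ
  have hP0 : P.map (Int.castRingHom ℂ) ≠ 0 :=
    (Polynomial.map_ne_zero_iff (RingHom.injective_int _)).2 hP.ne_zero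
  have hmemZ : ∀ z, z ∈ Z ↔ (P.map (Int.castRingHom ℂ)).eval z = 0 := by
    intro z
    rw [hZ, Multiset.mem_toFinset, mem_roots hP0, IsRoot.def]
  set U := Z.filter (fun z => ‖z‖ = 1) with hU
  set V := Z.filter (fun z => ‖z‖ < 1) with hV
  set c : ℝ := min (η / 2) (1 / 4) with hc
  have hc0 : 0 < c := by rw [hc]; positivity
  have hcη : c < η := lt_of_le_of_lt (min_le_left _ _) (by linarith)
  have hc4 : c ≤ 1 / 4 := min_le_right _ _
  have hcard : (0 : ℝ) < U.card + 1 := by positivity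
  obtain ⟨N, hN1, hN⟩ := exists_return U (fun z hz => (Finset.mem_filter.1 hz).2)
    (c / (2 * (U.card + 1))) (by positivity)
  let g : ℂ → ℂ[X] := fun z => C (z ^ N - 1)
  have hg : g ∈ Xi P k := by
    intro z _
    refine ⟨?_, ?_⟩
    · change (C (z ^ N - 1)).natDegree ≤ k
      rw [natDegree_C]; exact Nat.zero_le _
    · simp [g]
  let y : ℕ → ℂ := fun n => (∑ z ∈ U, (z ^ N - 1) * z ^ n) + ∑ z ∈ V, (z ^ N - 1) * z ^ n
  -- the trace
  have htr : ∀ n, ∃ t : ℤ, (t : ℂ) = ((xseq P g n : ℝ) : ℂ) + y n := by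
    intro n
    obtain ⟨t, ht⟩ := trace_int hP hirr ((X ^ N - 1) * X ^ n)
    refine ⟨t, ?_⟩
    rw [ht, xseq_eq hP.ne_zero hg, ← hZ]
    have hs : Z = (expRoots P ∪ U) ∪ V := by
      ext z
      have he : z ∈ expRoots P ↔ z ∈ Z ∧ 1 < ‖z‖ := by
        rw [mem_expRoots hP.ne_zero, hmemZ]
      rw [Finset.mem_union, Finset.mem_union, he, hU, hV, Finset.mem_filter, Finset.mem_filter]
      rcases lt_trichotomy ‖z‖ 1 with h | h | h
      · constructor
        · intro hz; exact Or.inr ⟨hz, h⟩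
        · tauto
      · constructor
        · intro hz; exact Or.inl (Or.inr ⟨hz, h⟩)
        · tauto
      · constructor
        · intro hz; exact Or.inl (Or.inl ⟨hz, h⟩)
        · tauto
    have hd1 : Disjoint (expRoots P) U := by
      rw [Finset.disjoint_left]
      intro z hz hz2
      have h1 := ((mem_expRoots hP.ne_zero z).1 hz).2
      have h2 := (Finset.mem_filter.1 hz2).2
      linarith
    have hd2 : Disjoint (expRoots P ∪ U) V := by
      rw [Finset.disjoint_left]
      intro z hz hz2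
      have h2 := (Finset.mem_filter.1 hz2).2
      rcases Finset.mem_union.1 hz with h3 | h3
      · have h1 := ((mem_expRoots hP.ne_zero z).1 h3).2
        linarith
      · have h1 := (Finset.mem_filter.1 h3).2
        linarith
    rw [hs, Finset.sum_union hd2, Finset.sum_union hd1, add_assoc]
    simp only [y, ep, g, Polynomial.map_mul, Polynomial.map_sub, Polynomial.map_pow, map_X,
      Polynomial.map_one, eval_mul, eval_sub, eval_pow, eval_X, eval_one, eval_C]
  choose t ht using htr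
  have hyr : ∀ n, y n = (((t n : ℝ) - xseq P g n : ℝ) : ℂ) := by
    intro n
    push_cast
    rw [ht n]; ring
  have hyn : ∀ n, ‖y n‖ = |xseq P g n - t n| := by
    intro n
    rw [hyr, Complex.norm_real, Real.norm_eq_abs, abs_sub_comm]
  have hVlim : Tendsto (fun n : ℕ => ∑ z ∈ V, (z ^ N - 1) * z ^ n) atTop (nhds 0) := by
    have h1 : (0 : ℂ) = ∑ z ∈ V, (z ^ N - 1) * 0 := by simp
    rw [h1]
    apply tendsto_finsetSum
    intro z hz
    apply Tendsto.const_mul
    apply tendsto_pow_atTop_nhds_zero_of_norm_lt_one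
    exact (Finset.mem_filter.1 hz).2
  have hUb : ∀ n : ℕ, ‖∑ z ∈ U, (z ^ N - 1) * z ^ n‖ ≤ c / 2 := by
    intro n
    refine (norm_sum_le _ _).trans ?_
    calc ∑ z ∈ U, ‖(z ^ N - 1) * z ^ n‖ ≤ ∑ _z ∈ U, c / (2 * (U.card + 1)) := by
          apply Finset.sum_le_sum
          intro z hz
          rw [norm_mul, norm_pow, (Finset.mem_filter.1 hz).2, one_pow, mul_one]
          exact (hN z hz).le
      _ = U.card * (c / (2 * (U.card + 1))) := by rw [Finset.sum_const, nsmul_eq_mul]
      _ ≤ (U.card + 1) * (c / (2 * (U.card + 1))) := by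
          apply mul_le_mul_of_nonneg_right _ (by positivity)
          linarith
      _ = c / 2 := by field_simp
  have hyb : ∀ᶠ n in atTop, ‖y n‖ ≤ c := by
    have h1 : ∀ᶠ n : ℕ in atTop, ‖∑ z ∈ V, (z ^ N - 1) * z ^ n‖ < c / 2 := by
      have := hVlim.norm
      rw [norm_zero] at this
      exact this.eventually_lt_const (by linarith)
    filter_upwards [h1] with n hn
    refine (norm_add_le _ _).trans ?_
    linarith [hUb n]
  have hdist : ∀ᶠ n in atTop, distInt (xseq P g n) = ‖y n‖ := by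
    filter_upwards [hyb] with n hn
    rw [hyn] at hn ⊢
    exact distInt_eq _ _ (by linarith)
  have hnt : ¬ Tendsto (fun n => distInt (xseq P g n)) atTop (nhds 0) := by
    intro hcon
    have h1 : Tendsto y atTop (nhds 0) := by
      rw [tendsto_zero_iff_norm_tendsto_zero]
      exact hcon.congr' hdist
    have h2 : Tendsto (fun n : ℕ => ∑ z ∈ U, (z ^ N - 1) * z ^ n) atTop (nhds 0) := by
      have h3 := h1.sub hVlim
      rw [sub_zero] at h3
      refine h3.congr fun n => ?_
      simp only [y]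
      ring
    have h4 := unit_zero U (fun z hz => (Finset.mem_filter.1 hz).2) (fun z => z ^ N - 1) h2
    obtain ⟨w, hw0, hw1⟩ := hunit
    have hwU : w ∈ U := Finset.mem_filter.2 ⟨(hmemZ w).2 hw0, hw1⟩
    have h5 := h4 w hwU
    -- `P` divides `X ^ N - 1`
    obtain ⟨z, hz0, hz1⟩ := hexp
    have hPq : Irreducible (P.map (algebraMap ℤ ℚ)) :=
      (Polynomial.Monic.irreducible_iff_irreducible_map_fraction_map (K := ℚ) hP).1 hirr
    have hmap : P.map (Int.castRingHom ℂ) = (P.map (algebraMap ℤ ℚ)).map (algebraMap ℚ ℂ) := by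
      rw [Polynomial.map_map]
      congr 1
    have hw0' : (aeval w) (P.map (algebraMap ℤ ℚ)) = 0 := by
      rw [aeval_def, ← eval_map, ← hmap]; exact hw0
    have hz0' : (aeval z) (P.map (algebraMap ℤ ℚ)) = 0 := by
      rw [aeval_def, ← eval_map, ← hmap]; exact hz0
    have hmin : minpoly ℚ w = P.map (algebraMap ℤ ℚ) :=
      (minpoly.eq_of_irreducible_of_monic hPq hw0' (hP.map _)).symm
    have hdvd : P.map (algebraMap ℤ ℚ) ∣ (X ^ N - 1 : ℚ[X]) := by
      rw [← hmin]
      apply minpoly.dvd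
      simp only [map_sub, map_pow, aeval_X, map_one]
      exact h5
    obtain ⟨T, hT⟩ := hdvd
    have h6 : (aeval z) (X ^ N - 1 : ℚ[X]) = 0 := by
      rw [hT, map_mul, hz0', zero_mul]
    simp only [map_sub, map_pow, aeval_X, map_one] at h6
    have h7 : ‖z‖ ^ N = 1 := by
      rw [← norm_pow, sub_eq_zero.1 h6, norm_one]
    have h8 : 1 < ‖z‖ ^ N := one_lt_pow₀ hz1 (by omega)
    linarith
  have hle : ∀ᶠ n in atTop, distInt (xseq P g n) ≤ c := by
    filter_upwards [hyb, hdist] with n h1 h2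
    rw [h2]; exact h1
  obtain ⟨h1, h2⟩ := limsup_bounds _ (fun n => distInt_nonneg (xseq P g n))
    (fun n => distInt_le _) c hle hnt
  exact ⟨_, ⟨g, hg, rfl⟩, h1, lt_of_le_of_lt h2 hcη⟩

/-- for a non-hyperbolic polynomial the spectrum is countable near zero, dense in `[0,1/2]`, not
closed -/
theorem main {P : ℤ[X]} (hP : P.Monic) (hirr : Irreducible P)
    (hexp : ∃ z : ℂ, (P.map (Int.castRingHom ℂ)).eval z = 0 ∧ 1 < ‖z‖)
    (hunit : ∃ z : ℂ, (P.map (Int.castRingHom ℂ)).eval z = 0 ∧ ‖z‖ = 1) (k : ℕ) :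
    (∃ ε : ℝ, 0 < ε ∧ (spectrum P k ∩ Set.Iio ε).Countable) ∧
    Set.Icc 0 (1 / 2) ⊆ closure (spectrum P k) ∧ ¬ IsClosed (spectrum P k) ∧
    spectrum P k ≠ Set.Icc 0 (1 / 2) := by
  obtain ⟨ε, hε, hcount⟩ := countable_near hP k
  have hdense : Set.Ico (0 : ℝ) (1 / 2) ⊆ closure (spectrum P k) := by
    intro t ht
    rw [Metric.mem_closure_iff]
    intro η hη
    obtain ⟨v, hv, hv0, hvη⟩ := exists_small hP hirr hexp hunit k η hη
    have h1 := Nat.floor_le (div_nonneg ht.1 hv0.le)
    have h2 := Nat.lt_floor_add_one (t / v)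
    rw [le_div_iff₀ hv0] at h1
    rw [div_lt_iff₀ hv0] at h2
    refine ⟨(⌊t / v⌋₊ : ℝ) * v, mul_mem hv _ (lt_of_le_of_lt h1 ht.2), ?_⟩
    rw [Real.dist_eq, abs_lt]
    constructor <;> nlinarith
  have hdense2 : Set.Icc (0 : ℝ) (1 / 2) ⊆ closure (spectrum P k) := by
    rw [← closure_Ico (show (0 : ℝ) ≠ 1 / 2 by norm_num)]
    exact closure_minimal hdense isClosed_closure
  have hmiss : ∃ t : ℝ, 0 < t ∧ t < 1 / 2 ∧ t ∉ spectrum P k := by
    by_contra hcon
    push Not at hcon
    have h1 : Set.Ioo (0 : ℝ) (min ε (1 / 2)) ⊆ spectrum P k ∩ Set.Iio ε := by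
      intro t ht
      exact ⟨hcon t ht.1 (lt_of_lt_of_le ht.2 (min_le_right _ _)),
        lt_of_lt_of_le ht.2 (min_le_left _ _)⟩
    have h2 := hcount.mono h1
    rw [Cardinal.Real.Ioo_countable_iff] at h2
    have : 0 < min ε (1 / 2) := by positivity
    linarith
  obtain ⟨t, ht0, ht1, htn⟩ := hmiss
  refine ⟨⟨ε, hε, hcount⟩, hdense2, ?_, ?_⟩
  · intro hcl
    apply htn
    rw [← hcl.closure_eq]
    exact hdense ⟨ht0.le, ht1⟩
  · intro heq
    apply htn
    rw [heq]
    exact ⟨ht0.le, ht1.le⟩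

end Pool.Agent.Q270.Mls
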