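import Pool.Agent.Q270.MlsMain

/-!
# One expanding root; a Salem number of degree four
-/

set_option autoImplicit false

namespace Pool.Agent.Q270.Mls

open Polynomial Filter

theorem spectrum_singleton {P : ℤ[X]} {α : ℝ} (h : expRoots P = {(α : ℂ)}) :
    spectrum P 0 = {v | ∃ ξ : ℝ, limsup (fun n : ℕ => distInt (ξ * α ^ n)) atTop = v} := by
  ext v
  constructor
  · rintro ⟨g, hg, hv⟩
    obtain ⟨h1, h2⟩ := hg (α : ℂ) (by rw [h]; exact Finset.mem_singleton_self _)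
    rw [Complex.conj_ofReal] at h2
    have h3 : g (α : ℂ) = C ((g (α : ℂ)).coeff 0) := eq_C_of_natDegree_le_zero h1
    have h4 : starRingEnd ℂ ((g (α : ℂ)).coeff 0) = (g (α : ℂ)).coeff 0 := by
      conv_rhs => rw [h2]
      rw [coeff_map]
    obtain ⟨ξ, hξ⟩ := Complex.conj_eq_iff_real.1 h4
    refine ⟨ξ, ?_⟩
    rw [← hv]
    congr 1
    funext n
    unfold xseq
    rw [h, Finset.sum_singleton, h3, eval_C, hξ, ← Complex.ofReal_pow, ← Complex.ofReal_mul,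
      Complex.ofReal_re]
  · rintro ⟨ξ, hξ⟩
    refine ⟨fun _ => C (ξ : ℂ), ?_, ?_⟩
    · intro z _
      simp
    · rw [← hξ]
      congr 1
      funext n
      unfold xseq
      rw [h, Finset.sum_singleton, eval_C, ← Complex.ofReal_pow, ← Complex.ofReal_mul,
        Complex.ofReal_re]

/-- the quartic `X ^ 4 - 2 X ^ 3 - 2 X + 1` -/
noncomputable def P0 : ℤ[X] := X ^ 4 - 2 * X ^ 3 - 2 * X + 1

lemma P0_natDegree : P0.natDegree = 4 := by
  unfold P0; compute_degree!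

lemma P0_monic : P0.Monic := by
  unfold P0; monicity!

lemma P0_irreducible : Irreducible P0 := by
  have h1 : (algEquivAevalXAddC (1 : ℤ)) P0 = X ^ 4 + 2 * X ^ 3 - 4 * X - 2 := by
    simp only [P0, map_add, map_sub, map_mul, map_pow, map_ofNat, map_one,
      algEquivAevalXAddC_apply, aeval_X]
    ring
  rw [← MulEquiv.irreducible_iff (algEquivAevalXAddC (1 : ℤ)), h1]
  have hd : (X ^ 4 + 2 * X ^ 3 - 4 * X - 2 : ℤ[X]).natDegree = 4 := by compute_degree!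
  have hm : (X ^ 4 + 2 * X ^ 3 - 4 * X - 2 : ℤ[X]).Monic := by monicity!
  have hprime : (Ideal.span {(2 : ℤ)}).IsPrime := by
    rw [Ideal.span_singleton_prime (by norm_num)]
    exact Int.prime_two
  apply irreducible_of_eisenstein_criterion hprime
  · rw [hm.leadingCoeff, Ideal.mem_span_singleton]
    norm_num
  · intro n hn
    rw [degree_eq_natDegree hm.ne_zero, hd] at hn
    have hn4 : n < 4 := by exact_mod_cast hn
    rw [Ideal.mem_span_singleton]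
    have h2 : (X ^ 4 + 2 * X ^ 3 - 4 * X - 2 : ℤ[X]).coeff n
        = (if n = 4 then 1 else 0) + 2 * (if n = 3 then 1 else 0) - 4 * (if n = 1 then 1 else 0)
          - (if n = 0 then 2 else 0) := by
      have e2 : (2 : ℤ[X]) = C 2 := rfl
      have e4 : (4 : ℤ[X]) = C 4 := rfl
      rw [e2, e4]
      simp only [coeff_add, coeff_sub, coeff_C_mul, coeff_X_pow, coeff_X, coeff_C]
      congr 3
      simp [eq_comm]
    rw [h2]
    interval_cases n <;> norm_num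
  · rw [degree_eq_natDegree hm.ne_zero, hd]; norm_num
  · have h2 : (X ^ 4 + 2 * X ^ 3 - 4 * X - 2 : ℤ[X]).coeff 0 = -2 := by
      simp
    rw [h2, Ideal.span_singleton_pow, Ideal.mem_span_singleton]
    norm_num
  · exact hm.isPrimitive

/-- the real root larger than one of the quartic -/
noncomputable def α0 : ℝ := (1 + √3 + √(2 * √3)) / 2

lemma s_sq : (√3 : ℝ) ^ 2 = 3 := Real.sq_sqrt (by norm_num)

lemma r_sq : (√(2 * √3) : ℝ) ^ 2 = 2 * √3 := Real.sq_sqrt (by positivity)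

lemma α0_gt : 2 < α0 := by
  unfold α0
  have h1 : (1.7 : ℝ) < √3 := by
    apply Real.lt_sqrt_of_sq_lt; norm_num
  have h2 : (1.5 : ℝ) < √(2 * √3) := by
    apply Real.lt_sqrt_of_sq_lt; linarith
  linarith

lemma P0_factor : P0.map (Int.castRingHom ℂ) = (X - C (α0 : ℂ)) * (X - C ((α0⁻¹ : ℝ) : ℂ)) *
    ((X - C (((1 - √3) / 2 : ℝ) + ((√(2 * √3) / 2 : ℝ) : ℂ) * Complex.I)) *
    (X - C (((1 - √3) / 2 : ℝ) - ((√(2 * √3) / 2 : ℝ) : ℂ) * Complex.I))) := by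
  have hα : α0⁻¹ = (1 + √3 - √(2 * √3)) / 2 := by
    have h1 := α0_gt
    rw [inv_eq_iff_eq_inv, eq_comm]
    apply inv_eq_of_mul_eq_one_left
    unfold α0
    nlinarith [s_sq, r_sq]
  have hs : ((√3 : ℝ) : ℂ) ^ 2 = 3 := by
    rw [← Complex.ofReal_pow, s_sq]; norm_num
  have hr : ((√(2 * √3) : ℝ) : ℂ) ^ 2 = 2 * (√3 : ℝ) := by
    rw [← Complex.ofReal_pow, r_sq]; push_cast; ring
  have e1 : (X - C (α0 : ℂ)) * (X - C ((α0⁻¹ : ℝ) : ℂ)) = X ^ 2 - C (1 + (√3 : ℝ) : ℂ) * X + 1 := by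
    rw [hα]
    have a1 : ((α0 : ℝ) : ℂ) + (((1 + √3 - √(2 * √3)) / 2 : ℝ) : ℂ) = 1 + (√3 : ℝ) := by
      unfold α0; push_cast; ring
    have a2 : ((α0 : ℝ) : ℂ) * (((1 + √3 - √(2 * √3)) / 2 : ℝ) : ℂ) = 1 := by
      unfold α0; push_cast
      linear_combination (1 / 4 : ℂ) * hs - (1 / 4 : ℂ) * hr
    have : (X - C (α0 : ℂ)) * (X - C ((((1 + √3 - √(2 * √3)) / 2 : ℝ) : ℂ)))
        = X ^ 2 - (C (α0 : ℂ) + C ((((1 + √3 - √(2 * √3)) / 2 : ℝ) : ℂ))) * X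
          + C (α0 : ℂ) * C ((((1 + √3 - √(2 * √3)) / 2 : ℝ) : ℂ)) := by ring
    rw [this, ← C_add, ← C_mul, a1, a2, C_1]
  have e2 : (X - C ((((1 - √3) / 2 : ℝ) : ℂ) + ((√(2 * √3) / 2 : ℝ) : ℂ) * Complex.I)) *
    (X - C ((((1 - √3) / 2 : ℝ) : ℂ) - ((√(2 * √3) / 2 : ℝ) : ℂ) * Complex.I))
      = X ^ 2 - C (1 - (√3 : ℝ) : ℂ) * X + 1 := by
    have a1 : ((((1 - √3) / 2 : ℝ) : ℂ) + ((√(2 * √3) / 2 : ℝ) : ℂ) * Complex.I) +
        ((((1 - √3) / 2 : ℝ) : ℂ) - ((√(2 * √3) / 2 : ℝ) : ℂ) * Complex.I) = 1 - (√3 : ℝ) := by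
      push_cast; ring
    have a2 : ((((1 - √3) / 2 : ℝ) : ℂ) + ((√(2 * √3) / 2 : ℝ) : ℂ) * Complex.I) *
        ((((1 - √3) / 2 : ℝ) : ℂ) - ((√(2 * √3) / 2 : ℝ) : ℂ) * Complex.I) = 1 := by
      push_cast
      linear_combination (1 / 4 : ℂ) * hs + (1 / 4 : ℂ) * hr
        - ((√(2 * √3) : ℝ) : ℂ) ^ 2 / 4 * Complex.I_sq
    have h3 : ∀ a b : ℂ, (X - C a) * (X - C b) = X ^ 2 - C (a + b) * X + C (a * b) := by
      intro a b
      rw [C_add, C_mul]; ring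
    rw [h3, a1, a2, C_1]
  rw [e1, e2]
  have h4 : P0.map (Int.castRingHom ℂ) = X ^ 4 - C 2 * X ^ 3 - C 2 * X + 1 := by
    unfold P0
    simp only [Polynomial.map_add, Polynomial.map_sub, Polynomial.map_mul, Polynomial.map_pow,
      map_X, Polynomial.map_one, Polynomial.map_ofNat]
    rfl
  rw [h4]
  have h5 : C (1 + (√3 : ℝ) : ℂ) * C (1 - (√3 : ℝ) : ℂ) = C (-2 : ℂ) := by
    rw [← C_mul]
    congr 1
    linear_combination -hs
  have h6 : C (1 + (√3 : ℝ) : ℂ) + C (1 - (√3 : ℝ) : ℂ) = C (2 : ℂ) := by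
    rw [← C_add]
    congr 1
    ring
  have h7 : (C (-2 : ℂ) : ℂ[X]) = -2 := by
    rw [C_neg]; rfl
  have h8 : (C (2 : ℂ) : ℂ[X]) = 2 := rfl
  rw [h7] at h5
  rw [h8] at h6 ⊢
  linear_combination (-(X ^ 2 : ℂ[X])) * h5 + (X ^ 3 + X : ℂ[X]) * h6

lemma P0_root (z : ℂ) : (P0.map (Int.castRingHom ℂ)).eval z = 0 ↔ z = (α0 : ℂ) ∨
    z = ((α0⁻¹ : ℝ) : ℂ) ∨ z = ((1 - √3) / 2 : ℝ) + ((√(2 * √3) / 2 : ℝ) : ℂ) * Complex.I ∨
    z = ((1 - √3) / 2 : ℝ) - ((√(2 * √3) / 2 : ℝ) : ℂ) * Complex.I := by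
  rw [P0_factor]
  simp only [eval_mul, eval_sub, eval_X, eval_C, mul_eq_zero, sub_eq_zero]
  tauto

lemma norm_one : ∀ z : ℂ, (z = ((1 - √3) / 2 : ℝ) + ((√(2 * √3) / 2 : ℝ) : ℂ) * Complex.I ∨
    z = ((1 - √3) / 2 : ℝ) - ((√(2 * √3) / 2 : ℝ) : ℂ) * Complex.I) → ‖z‖ = 1 := by
  rintro z (rfl | rfl)
  · rw [← Complex.mk_eq_add_mul_I, Complex.norm_eq_sqrt_sq_add_sq, Real.sqrt_eq_one]
    simp only
    nlinarith [s_sq, r_sq]
  · have : (((1 - √3) / 2 : ℝ) : ℂ) - ((√(2 * √3) / 2 : ℝ) : ℂ) * Complex.I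
        = (((1 - √3) / 2 : ℝ) : ℂ) + ((-(√(2 * √3) / 2) : ℝ) : ℂ) * Complex.I := by
      push_cast; ring
    rw [this, ← Complex.mk_eq_add_mul_I, Complex.norm_eq_sqrt_sq_add_sq, Real.sqrt_eq_one]
    simp only
    nlinarith [s_sq, r_sq]

lemma exp_P0 : expRoots P0 = {(α0 : ℂ)} := by
  have hα := α0_gt
  ext z
  rw [mem_expRoots P0_monic.ne_zero, P0_root, Finset.mem_singleton]
  constructor
  · rintro ⟨h | h | h, h1⟩
    · exact h
    · exfalso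
      rw [h, Complex.norm_real, norm_inv, Real.norm_eq_abs, abs_of_pos (by linarith)] at h1
      have : α0⁻¹ < 1 := inv_lt_one_of_one_lt₀ (by linarith)
      linarith
    · exfalso
      rw [norm_one z h] at h1
      linarith
  · rintro rfl
    refine ⟨Or.inl rfl, ?_⟩
    rw [Complex.norm_real, Real.norm_eq_abs, abs_of_pos (by linarith)]
    linarith

lemma P0_exp : ∃ z : ℂ, (P0.map (Int.castRingHom ℂ)).eval z = 0 ∧ 1 < ‖z‖ := by
  have h := (mem_expRoots P0_monic.ne_zero (α0 : ℂ)).1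
    (by rw [exp_P0]; exact Finset.mem_singleton_self _)
  exact ⟨_, h⟩

lemma P0_unit : ∃ z : ℂ, (P0.map (Int.castRingHom ℂ)).eval z = 0 ∧ ‖z‖ = 1 :=
  ⟨_, (P0_root _).2 (Or.inr (Or.inr (Or.inl rfl))), norm_one _ (Or.inl rfl)⟩

end Pool.Agent.Q270.Mls
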