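import Pool.Agent.Q270.MlsCount

/-!
# Traces and simultaneous returns
-/

set_option autoImplicit false

namespace Pool.Agent.Q270.Mls

open Polynomial Filter

/-- the sum of the values of an integer polynomial at the roots of a monic irreducible integer
polynomial is an integer -/
theorem trace_int {P : ℤ[X]} (hP : P.Monic) (hirr : Irreducible P) (f : ℤ[X]) :
    ∃ t : ℤ, (t : ℂ) = ∑ w ∈ (P.map (Int.castRingHom ℂ)).roots.toFinset,
      (f.map (Int.castRingHom ℂ)).eval w := by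
  classical
  let Pq : ℚ[X] := P.map (algebraMap ℤ ℚ)
  have hPq : Irreducible Pq :=
    (Polynomial.Monic.irreducible_iff_irreducible_map_fraction_map (K := ℚ) hP).1 hirr
  have : Fact (Irreducible Pq) := ⟨hPq⟩
  let L := AdjoinRoot Pq
  have hfd : FiniteDimensional ℚ L := (AdjoinRoot.powerBasis hPq.ne_zero).finite
  let α : L := AdjoinRoot.root Pq
  have hα : (aeval α) P = 0 := by
    have h1 := AdjoinRoot.eval₂_root Pq
    rw [eval₂_map] at h1
    rw [aeval_def, ← h1]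
    congr 1
  have hint : IsIntegral ℤ α := ⟨P, hP, by rw [← aeval_def]; exact hα⟩
  let x : L := (aeval α) f
  have hx : IsIntegral ℤ x := IsIntegral.of_mem_of_fg _ hint.fg_adjoin_singleton _
    (Algebra.adjoin_singleton_eq_range_aeval ℤ α ▸ ⟨f, rfl⟩)
  have htr : IsIntegral ℤ (Algebra.trace ℚ L x) := Algebra.isIntegral_trace hx
  obtain ⟨t, ht⟩ := IsIntegrallyClosed.isIntegral_iff.1 htr
  refine ⟨t, ?_⟩
  have h2 := trace_eq_sum_embeddings (K := ℚ) (L := L) ℂ (x := x)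
  rw [← ht] at h2
  have h3 : algebraMap ℚ ℂ (algebraMap ℤ ℚ t) = (t : ℂ) := by simp
  rw [h3] at h2
  rw [h2]
  have h4 : ∀ σ : L →ₐ[ℚ] ℂ, σ x = (f.map (Int.castRingHom ℂ)).eval (σ α) := by
    intro σ
    rw [eval_map]
    have : σ x = (σ : L →+* ℂ) ((aeval α) f) := rfl
    rw [this, aeval_def, hom_eval₂]
    congr 1
    ext
    simp
  have h5 : (P.map (Int.castRingHom ℂ)) = Pq.map (algebraMap ℚ ℂ) := by
    simp only [Pq]
    rw [Polynomial.map_map]
    congr 1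
  let e := AdjoinRoot.equiv ℂ ℚ Pq hPq.ne_zero
  rw [Finset.sum_congr rfl (fun σ _ => h4 σ)]
  have h6 : ∀ σ : L →ₐ[ℚ] ℂ, σ α = (e σ).1 := by
    intro σ
    rfl
  have h7 : ∑ σ : L →ₐ[ℚ] ℂ, (f.map (Int.castRingHom ℂ)).eval (σ α)
      = ∑ w : {x // x ∈ Pq.aroots ℂ}, (f.map (Int.castRingHom ℂ)).eval w.1 := by
    apply Fintype.sum_equiv e
    intro σ
    exact congrArg (fun w => (f.map (Int.castRingHom ℂ)).eval w) (h6 σ)
  rw [h7, h5]
  symm
  apply Finset.sum_subtype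
  intro w
  rw [Multiset.mem_toFinset]

/-- simultaneous return of the powers of finitely many points of the unit circle -/
theorem exists_return (Z : Finset ℂ) (hZ : ∀ z ∈ Z, ‖z‖ = 1) (δ : ℝ) (hδ : 0 < δ) :
    ∃ N : ℕ, 1 ≤ N ∧ ∀ z ∈ Z, ‖z ^ N - 1‖ < δ := by
  let u : ℕ → (Z → ℂ) := fun n z => (z : ℂ) ^ n
  have hb : Bornology.IsBounded (Set.range u) := by
    rw [isBounded_iff_forall_norm_le]
    refine ⟨1, ?_⟩
    rintro _ ⟨n, rfl⟩
    rw [pi_norm_le_iff_of_nonneg zero_le_one]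
    intro z
    simp only [u]
    rw [norm_pow, hZ z.1 z.2, one_pow]
  obtain ⟨a, _, φ, hφ, hlim⟩ := tendsto_subseq_of_bounded hb (fun n => Set.mem_range_self n)
  have hc := hlim.cauchySeq
  rw [Metric.cauchySeq_iff] at hc
  obtain ⟨M, hM⟩ := hc δ hδ
  have h1 := hM (M + 1) (by omega) M le_rfl
  have hlt : φ M < φ (M + 1) := hφ (Nat.lt_succ_self M)
  refine ⟨φ (M + 1) - φ M, by omega, ?_⟩
  intro z hz
  have h2 : ‖u (φ (M + 1)) ⟨z, hz⟩ - u (φ M) ⟨z, hz⟩‖ < δ := by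
    rw [dist_eq_norm] at h1
    refine lt_of_le_of_lt ?_ h1
    exact norm_le_pi_norm (((u ∘ φ) (M + 1)) - ((u ∘ φ) M)) ⟨z, hz⟩
  simp only [u] at h2
  have h3 : z ^ φ (M + 1) - z ^ φ M = z ^ φ M * (z ^ (φ (M + 1) - φ M) - 1) := by
    rw [mul_sub, ← pow_add, Nat.add_sub_cancel' hlt.le, mul_one]
  rw [h3, norm_mul, norm_pow, hZ z hz, one_pow, one_mul] at h2
  exact h2

lemma distInt_eq (x : ℝ) (m : ℤ) (h : |x - m| ≤ 1 / 2) : distInt x = |x - m| := by
  unfold distInt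
  apply le_antisymm (round_le x m)
  by_cases hr : round x = m
  · rw [hr]
  · have h1 : (1 : ℝ) ≤ |((round x - m : ℤ) : ℝ)| := by
      rw [← Int.cast_abs]
      exact_mod_cast Int.one_le_abs (sub_ne_zero.2 hr)
    have h2 : |((round x - m : ℤ) : ℝ)| ≤ |x - m| + |x - round x| := by
      have : ((round x - m : ℤ) : ℝ) = (x - m) - (x - round x) := by push_cast; ring
      rw [this]; exact abs_sub _ _
    linarith

end Pool.Agent.Q270.Mls
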