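import Mathlib

/-!
# Liouville type estimates for a nonarchimedean absolute value
-/

set_option autoImplicit false
set_option linter.unusedSectionVars false

namespace Pool.Agent.Q270.Ufs

open Polynomial

variable {R K : Type*} [CommRing R] [IsDomain R] [Field K] (i : R →+* K) (v : K → ℝ)

/-- nonarchimedean absolute value, bounded below by one on the nonzero integers -/
structure Good : Prop where
  zero : v 0 = 0
  pos : ∀ x, x ≠ 0 → 0 < v x
  mul : ∀ x y, v (x * y) = v x * v y
  add : ∀ x y, v (x + y) ≤ max (v x) (v y)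
  int : ∀ r : R, r ≠ 0 → 1 ≤ v (i r)

variable {i v} (h : Good i v)
include h

lemma Good.nonneg (x : K) : 0 ≤ v x := by
  by_cases hx : x = 0
  · rw [hx, h.zero]
  · exact (h.pos x hx).le

lemma Good.one : v 1 = 1 := by
  have h1 := h.mul 1 1
  rw [mul_one] at h1
  have h2 := h.pos 1 one_ne_zero
  nlinarith [mul_self_nonneg (v 1 - 1)]

lemma Good.neg (x : K) : v (-x) = v x := by
  have h1 : v (-1) * v (-1) = 1 := by
    rw [← h.mul]; simp [h.one]
  have h2 : v (-1) = 1 := by
    have h3 := h.nonneg (-1)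
    nlinarith
  rw [← neg_one_mul, h.mul, h2, one_mul]

lemma Good.sub (x y : K) : v (x - y) ≤ max (v x) (v y) := by
  rw [sub_eq_add_neg, ← h.neg y]; exact h.add _ _

lemma Good.pow (x : K) (n : ℕ) : v (x ^ n) = v x ^ n := by
  induction n with
  | zero => simp [h.one]
  | succ n ih => rw [pow_succ, pow_succ, h.mul, ih]

lemma Good.inj : Function.Injective i := by
  rw [injective_iff_map_eq_zero]
  intro r hr
  by_contra hne
  have := h.int r hne
  rw [hr, h.zero] at this
  linarith

lemma Good.sum {ι : Type*} (s : Finset ι) (f : ι → K) (B : ℝ) (hB : 0 ≤ B)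
    (hf : ∀ j ∈ s, v (f j) ≤ B) : v (∑ j ∈ s, f j) ≤ B := by
  classical
  induction s using Finset.induction_on with
  | empty => simpa [h.zero] using hB
  | insert a s ha ih =>
    rw [Finset.sum_insert ha]
    refine (h.add _ _).trans (max_le (hf a (Finset.mem_insert_self _ _)) (ih ?_))
    intro j hj
    exact hf j (Finset.mem_insert_of_mem hj)

/-- domination: if `v x < v y` then `v (x + y) = v y` -/
lemma Good.add_eq (x y : K) (hxy : v x < v y) : v (x + y) = v y := by
  apply le_antisymm
  · refine (h.add _ _).trans ?_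
    rw [max_eq_right hxy.le]
  · by_contra hcon
    push Not at hcon
    have h1 : v y ≤ max (v (x + y)) (v x) := by
      have := h.sub (x + y) x
      simpa using this
    rcases le_max_iff.1 h1 with h2 | h2 <;> linarith

lemma Good.pow_sub (x y : K) (hx : v x ≤ 1) (hy : v y ≤ 1) (n : ℕ) :
    v (x ^ n - y ^ n) ≤ v (x - y) := by
  rw [← Commute.geom_sum₂_mul (Commute.all x y) n, h.mul]
  have h1 : v (∑ k ∈ Finset.range n, x ^ k * y ^ (n - 1 - k)) ≤ 1 := by
    apply h.sum _ _ _ zero_le_one
    intro j _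
    rw [h.mul, h.pow, h.pow]
    exact mul_le_one₀ (pow_le_one₀ (h.nonneg _) hx) (pow_nonneg (h.nonneg _) _)
      (pow_le_one₀ (h.nonneg _) hy)
  have h2 := h.nonneg (x - y)
  nlinarith

lemma Good.eval_sub (P : R[X]) (B : ℝ) (hB : 0 ≤ B) (hP : ∀ k, v (i (P.coeff k)) ≤ B)
    (x y : K) (hx : v x ≤ 1) (hy : v y ≤ 1) :
    v (P.eval₂ i x - P.eval₂ i y) ≤ B * v (x - y) := by
  rw [eval₂_eq_sum_range, eval₂_eq_sum_range, ← Finset.sum_sub_distrib]
  apply h.sum _ _ _ (mul_nonneg hB (h.nonneg _))
  intro k _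
  rw [← mul_sub, h.mul]
  exact mul_le_mul (hP k) (h.pow_sub x y hx hy k) (h.nonneg _) hB

/-- Liouville at a rational point -/
lemma Good.liouville (P : R[X]) (n : ℕ) (hn : P.natDegree ≤ n) (D p : R) (hD : D ≠ 0)
    (hne : P.eval₂ i (i p / i D) ≠ 0) :
    1 ≤ v (i D) ^ n * v (P.eval₂ i (i p / i D)) := by
  have hiD : i D ≠ 0 := fun hh => hD (h.inj (by rw [hh, map_zero]))
  obtain ⟨E, bi, hbi, hE⟩ := denomsClearable_natDegree i P p
    (b := D) (bi := (i D)⁻¹) (inv_mul_cancel₀ hiD)
  have hbi' : bi = (i D)⁻¹ := by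
    field_simp
    exact hbi
  rw [eval_map, hbi', ← div_eq_mul_inv] at hE
  have hE0 : E ≠ 0 := by
    rintro rfl
    rw [map_zero] at hE
    rcases mul_eq_zero.1 hE.symm with h1 | h1
    · exact pow_ne_zero _ hiD h1
    · exact hne h1
  have h1 := h.int E hE0
  rw [hE, h.mul, h.pow] at h1
  refine h1.trans ?_
  apply mul_le_mul_of_nonneg_right _ (h.nonneg _)
  exact pow_le_pow_right₀ (h.int D hD) hn

omit h in
lemma frac_root [IsGCDMonoid R] (hi : Function.Injective i) (P : R[X])
    (hP : Irreducible P) (α : K) (hα : P.eval₂ i α = 0) (D p : R) (hD : D ≠ 0)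
    (h0 : P.eval₂ i (i p / i D) = 0) :
    α = i p / i D ∧ ∃ a b : R, a ≠ 0 ∧ P = C a * X + C b ∧ a * p + b * D = 0 := by
  classical
  have hiD : i D ≠ 0 := fun hh => hD (hi (by rw [hh, map_zero]))
  have hdeg : P.natDegree ≠ 0 := by
    intro hd
    rw [eq_C_of_natDegree_eq_zero hd, eval₂_C] at hα
    have h1 : P.coeff 0 = 0 := hi (by rw [hα, map_zero])
    apply hP.ne_zero
    rw [eq_C_of_natDegree_eq_zero hd, h1, C_0]
  have hprim := hP.isPrimitive hdeg
  let L := FractionRing R
  have hirr : Irreducible (P.map (algebraMap R L)) :=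
    (hprim.irreducible_iff_irreducible_map_fraction_map (K := L)).1 hP
  let φ : L →+* K := IsFractionRing.lift (A := R) (K := L) hi
  have hφ : ∀ r : R, φ (algebraMap R L r) = i r := fun r => IsFractionRing.lift_algebraMap hi r
  have hroot : (P.map (algebraMap R L)).IsRoot (algebraMap R L p / algebraMap R L D) := by
    rw [IsRoot.def, eval_map]
    apply φ.injective
    rw [map_zero, hom_eval₂, map_div₀, hφ, hφ, ← h0]
    congr 1
    ext r
    exact hφ r
  have hd1 := degree_eq_one_of_irreducible_of_root hirr hroot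
  rw [degree_map_eq_of_injective (IsFractionRing.injective R L)] at hd1
  have hnd : P.natDegree = 1 := natDegree_eq_of_degree_eq_some hd1
  have hPeq : P = C (P.coeff 1) * X + C (P.coeff 0) :=
    eq_X_add_C_of_degree_le_one (le_of_eq hd1)
  have ha : P.coeff 1 ≠ 0 := by
    have := hP.ne_zero
    rw [← leadingCoeff_ne_zero, leadingCoeff, hnd] at this
    exact this
  have hia : i (P.coeff 1) ≠ 0 := fun hh => ha (hi (by rw [hh, map_zero]))
  have e1 : i (P.coeff 1) * α + i (P.coeff 0) = 0 := by
    rw [hPeq] at hα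
    simpa using hα
  have e2 : i (P.coeff 1) * (i p / i D) + i (P.coeff 0) = 0 := by
    rw [hPeq] at h0
    simpa using h0
  refine ⟨?_, P.coeff 1, P.coeff 0, ha, hPeq, ?_⟩
  · apply mul_left_cancel₀ hia
    linear_combination e1 - e2
  · apply hi
    rw [map_zero, map_add, map_mul, map_mul]
    field_simp at e2
    linear_combination e2

end Pool.Agent.Q270.Ufs
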