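import Pool.Agent.Q270.UfsCore

/-!
# A very well approximable element has a small uniform exponent
-/

set_option autoImplicit false
set_option linter.unusedSectionVars false

namespace Pool.Agent.Q270.Ufs

open Polynomial Filter

variable {R K : Type*} [CommRing R] [IsDomain R] [Field K] {i : R →+* K} {v : K → ℝ}

theorem core [IsGCDMonoid R] (h : Good i v) (D p : ℕ → R) (ξ : K) (Q n : ℕ)
    (hn : 1 ≤ n) (hnQ : n < Q)
    (hD : ∀ j, D j ≠ 0) (hcop : ∀ j, IsCoprime (D j) (p j))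
    (hX : Tendsto (fun j => v (i (D j))) atTop atTop)
    (hs : ∀ j, v (ξ - i (p j) / i (D j)) * v (i (D j)) ^ Q = 1)
    (hξ : v ξ < 1) (w : ℝ) (hw : ((Q : ℝ) - 1) / ((Q : ℝ) - n) < w) (H0 : ℝ) :
    ∃ H : ℝ, H0 < H ∧ ∀ (α : K) (P : R[X]) (B : ℝ), Irreducible P → P.eval₂ i α = 0 →
      P.natDegree ≤ n → (∀ k, v (i (P.coeff k)) ≤ B) → B ≤ H →
      B⁻¹ * H ^ (-w) ≤ v (ξ - α) := by
  have hQn : (0 : ℝ) < (Q : ℝ) - n := by
    have : (n : ℝ) < Q := by exact_mod_cast hnQ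
    linarith
  have hQ1 : (0 : ℝ) ≤ (Q : ℝ) - 1 := by
    have : (1 : ℝ) ≤ Q := by exact_mod_cast (by omega : 1 ≤ Q)
    linarith
  have hw0 : 0 < w := lt_of_le_of_lt (div_nonneg hQ1 hQn.le) hw
  set e : ℝ := ((Q : ℝ) - n) * w - ((Q : ℝ) - 1) with he
  have he0 : 0 < e := by
    rw [div_lt_iff₀ hQn] at hw
    rw [he]; linarith
  have ev1 : ∀ᶠ j in atTop, (2 : ℝ) ^ w ≤ v (i (D j)) ^ e :=
    ((tendsto_rpow_atTop he0).comp hX).eventually_ge_atTop _
  have ev2 : ∀ᶠ j in atTop, 2 * H0 < v (i (D j)) ^ (Q - n) :=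
    ((tendsto_pow_atTop (by omega)).comp hX).eventually_gt_atTop _
  have ev3 : ∀ᶠ j in atTop, 2 ≤ v (i (D j)) := hX.eventually_ge_atTop _
  obtain ⟨j, h1, h2, h3⟩ := (ev1.and (ev2.and ev3)).exists
  set X := v (i (D j)) with hXd
  have hX0 : 0 < X := by linarith
  have hX1 : 1 ≤ X := by linarith
  set H : ℝ := X ^ (Q - n) / 2 with hHd
  have hH1 : 1 ≤ H := by
    rw [hHd, le_div_iff₀ two_pos, one_mul]
    refine h3.trans ?_
    exact le_self_pow₀ hX1 (by omega)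
  have hH0 : 0 < H := by linarith
  have hHX : H < X ^ (Q - n) := by
    rw [hHd]
    have : 0 < X ^ (Q - n) := pow_pos hX0 _
    linarith
  have hHw : X ^ (Q - 1) ≤ H ^ w := by
    rw [hHd, Real.div_rpow (pow_nonneg hX0.le _) two_pos.le, le_div_iff₀ (Real.rpow_pos_of_pos two_pos _)]
    calc X ^ (Q - 1) * 2 ^ w ≤ X ^ (Q - 1) * X ^ e :=
          mul_le_mul_of_nonneg_left h1 (pow_nonneg hX0.le _)
      _ = X ^ (((Q - 1 : ℕ) : ℝ) + e) := by
          rw [Real.rpow_add hX0, Real.rpow_natCast]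
      _ = (X ^ (Q - n)) ^ w := by
          rw [← Real.rpow_natCast X (Q - n), ← Real.rpow_mul hX0.le]
          congr 1
          rw [he, Nat.cast_sub (by omega), Nat.cast_sub (by omega)]
          push_cast
          ring
  have hHw' : H ^ (-w) ≤ (X ^ (Q - 1))⁻¹ := by
    rw [Real.rpow_neg hH0.le]
    exact inv_anti₀ (pow_pos hX0 _) hHw
  have hHw1 : H ^ (-w) ≤ 1 := hHw'.trans (inv_le_one_of_one_le₀ (one_le_pow₀ hX1))
  have hHwpos : 0 < H ^ (-w) := Real.rpow_pos_of_pos hH0 _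
  refine ⟨H, by rw [hHd]; linarith, ?_⟩
  intro α P B hP hα hdeg hB hBH
  have hB1 : 1 ≤ B := by
    have hlc : P.leadingCoeff ≠ 0 := leadingCoeff_ne_zero.2 hP.ne_zero
    exact (h.int _ hlc).trans (hB _)
  have hB0 : 0 < B := by linarith
  have hBi : B⁻¹ ≤ 1 := inv_le_one_of_one_le₀ hB1
  have hBi0 : 0 < B⁻¹ := inv_pos.2 hB0
  by_cases hα1 : 1 < v α
  · have e1 : v (ξ - α) = v α := by
      rw [sub_eq_add_neg, h.add_eq, h.neg]
      rw [h.neg]; linarith
    rw [e1]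
    have : B⁻¹ * H ^ (-w) ≤ 1 * 1 := mul_le_mul hBi hHw1 hHwpos.le zero_le_one
    linarith
  push Not at hα1
  set s := i (p j) / i (D j) with hsd
  have hsj := hs j
  rw [← hXd, ← hsd] at hsj
  have hξs : v (ξ - s) = (X ^ Q)⁻¹ := eq_inv_of_mul_eq_one_left hsj
  have hXQ1 : (X ^ Q)⁻¹ < 1 := by
    apply inv_lt_one_of_one_lt₀
    exact one_lt_pow₀ (by linarith) (by omega)
  have hs1 : v s ≤ 1 := by
    have : s = -((ξ - s) - ξ) := by ring
    rw [this, h.neg]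
    refine (h.sub _ _).trans (max_le ?_ hξ.le)
    rw [hξs]; exact hXQ1.le
  by_cases h0 : P.eval₂ i s = 0
  · obtain ⟨e1, a, b, ha, hPeq, hab⟩ := frac_root h.inj P hP α hα (D j) (p j) (hD j) h0
    have hdvd : D j ∣ a := by
      apply (hcop j).dvd_of_dvd_mul_right
      refine ⟨-b, ?_⟩
      linear_combination hab
    obtain ⟨c, hc⟩ := hdvd
    have hc0 : c ≠ 0 := by rintro rfl; exact ha (by rw [hc, mul_zero])
    have hBX : X ≤ B := by
      have h4 := hB 1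
      have h5 : P.coeff 1 = a := by rw [hPeq]; simp
      rw [h5, hc, map_mul, h.mul] at h4
      have h6 := h.int c hc0
      nlinarith
    rw [e1, ← hsd, hξs]
    calc B⁻¹ * H ^ (-w) ≤ X⁻¹ * (X ^ (Q - 1))⁻¹ :=
          mul_le_mul (inv_anti₀ hX0 hBX) hHw' hHwpos.le (inv_nonneg.2 hX0.le)
      _ = (X ^ Q)⁻¹ := by
          rw [← mul_inv, ← pow_succ', Nat.sub_add_cancel (by omega)]
  · have h4 := h.liouville P n hdeg (D j) (p j) (hD j) h0
    rw [← hXd, ← hsd] at h4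
    have h5 : v (P.eval₂ i s) ≤ B * v (s - α) := by
      have := h.eval_sub P B hB0.le hB s α hs1 hα1
      rwa [hα, sub_zero] at this
    have h6 : 1 ≤ X ^ n * (B * v (s - α)) :=
      h4.trans (mul_le_mul_of_nonneg_left h5 (pow_nonneg hX0.le _))
    have hXn : 0 < X ^ n := pow_pos hX0 _
    have h7 : (X ^ n)⁻¹ * B⁻¹ ≤ v (s - α) := by
      rw [← mul_inv, inv_le_iff_one_le_mul₀ (mul_pos hXn hB0)]
      linarith
    have h8 : v (ξ - s) < v (s - α) := by
      refine lt_of_lt_of_le ?_ h7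
      rw [hξs, ← mul_inv]
      apply inv_strictAnti₀ (mul_pos hXn hB0)
      calc X ^ n * B < X ^ n * X ^ (Q - n) :=
            mul_lt_mul_of_pos_left (lt_of_le_of_lt hBH hHX) hXn
        _ = X ^ Q := by rw [← pow_add]; congr 1; omega
    have h9 : v (ξ - α) = v (s - α) := by
      have : ξ - α = (ξ - s) + (s - α) := by ring
      rw [this, h.add_eq _ _ h8]
    rw [h9]
    refine le_trans ?_ h7
    rw [mul_comm]
    apply mul_le_mul_of_nonneg_right _ hBi0.le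
    refine hHw'.trans ?_
    apply inv_anti₀ hXn
    exact pow_le_pow_right₀ hX1 (by omega)

end Pool.Agent.Q270.Ufs
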