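import Pool.Agent.Q270.UfsMain

/-!
# The field of Laurent series in `1/T` over a finite field
-/

set_option autoImplicit false
set_option linter.unusedSectionVars false

namespace Pool.Agent.Q270.Ufs

open Polynomial Filter

section emb

variable {k : Type*} [Field k]

/-- the embedding of `k[T]` in the field of Laurent series in `1/T` (the variable of the
Laurent series is `1/T`, so `T` goes to the monomial of exponent `-1`) -/
noncomputable def emb (k : Type*) [Field k] : k[X] →+* LaurentSeries k :=
  Polynomial.eval₂RingHom (HahnSeries.C : k →+* HahnSeries ℤ k) (HahnSeries.single (-1 : ℤ) (1 : k))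

theorem emb_monomial (n : ℕ) (a : k) :
    emb k (monomial n a) = HahnSeries.single (-(n : ℤ)) a := by
  unfold emb
  rw [coe_eval₂RingHom, eval₂_monomial, HahnSeries.single_pow, HahnSeries.C_apply,
    HahnSeries.single_mul_single]
  simp

theorem coeff_emb (p : k[X]) (j : ℤ) :
    (emb k p).coeff j = if j ≤ 0 then p.coeff (-j).toNat else 0 := by
  induction p using Polynomial.induction_on' with
  | add p q hp hq =>
    rw [map_add, HahnSeries.coeff_add, hp, hq]
    split_ifs <;> simp
  | monomial n a =>
    rw [emb_monomial, HahnSeries.coeff_single, coeff_monomial]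
    by_cases h1 : j ≤ 0
    · simp only [h1, if_true]
      by_cases h2 : j = -(n : ℤ)
      · have : n = (-j).toNat := by omega
        rw [if_pos h2, if_pos this]
      · have : n ≠ (-j).toNat := by omega
        rw [if_neg h2, if_neg this]
    · have h2 : j ≠ -(n : ℤ) := by omega
      simp [h1, h2]

theorem emb_injective : Function.Injective (emb k) := by
  intro p q h
  ext n
  have h1 := congrArg (fun s : LaurentSeries k => s.coeff (-(n : ℤ))) h
  simp only [coeff_emb] at h1
  simpa using h1

theorem order_emb {p : k[X]} (hp : p ≠ 0) :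
    (emb k p).order = -(p.natDegree : ℤ) := by
  have h0 : (emb k p) ≠ 0 := by
    intro h
    apply hp
    apply emb_injective
    rw [h, map_zero]
  apply le_antisymm
  · apply HahnSeries.order_le_of_coeff_ne_zero
    rw [coeff_emb, if_pos (by omega)]
    simpa using hp
  · by_contra hcon
    push Not at hcon
    have h1 := HahnSeries.coeff_order_eq_zero.not.2 h0
    apply h1
    rw [coeff_emb]
    rw [if_pos (by omega)]
    apply coeff_eq_zero_of_natDegree_lt
    omega

end emb

section absv

variable {F : Type*} [Field F] [Fintype F]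

/-- the absolute value: `0` at `0` and `q ^ (-N)` when the expansion starts with the
exponent `N` -/
noncomputable def absv (x : LaurentSeries F) : ℝ := by
  classical
  exact if x = 0 then 0 else (Fintype.card F : ℝ) ^ (-x.order)

lemma one_lt_card : (1 : ℝ) < Fintype.card F := by
  exact_mod_cast Fintype.one_lt_card

lemma absv_of_ne {x : LaurentSeries F} (hx : x ≠ 0) :
    absv x = (Fintype.card F : ℝ) ^ (-x.order) := by
  unfold absv; rw [if_neg hx]

lemma absv_zero : absv (0 : LaurentSeries F) = 0 := by
  unfold absv; rw [if_pos rfl]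

theorem good : Good (emb F) (absv (F := F)) where
  zero := absv_zero
  pos x hx := by
    rw [absv_of_ne hx]
    exact zpow_pos (by linarith [one_lt_card (F := F)]) _
  mul x y := by
    have hq : (Fintype.card F : ℝ) ≠ 0 := by linarith [one_lt_card (F := F)]
    by_cases hx : x = 0
    · simp [hx, absv_zero]
    by_cases hy : y = 0
    · simp [hy, absv_zero]
    rw [absv_of_ne hx, absv_of_ne hy, absv_of_ne (mul_ne_zero hx hy), HahnSeries.order_mul hx hy,
      ← zpow_add₀ hq]
    congr 1
    ring
  add x y := by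
    have hq := one_lt_card (F := F)
    by_cases hx : x = 0
    · simp [hx, absv_zero]
    by_cases hy : y = 0
    · simp [hy, absv_zero]
    by_cases hxy : x + y = 0
    · rw [hxy, absv_zero, absv_of_ne hx]
      apply le_max_of_le_left
      exact zpow_nonneg (by linarith) _
    rw [absv_of_ne hx, absv_of_ne hy, absv_of_ne hxy]
    have h1 := HahnSeries.min_order_le_order_add hxy
    rcases min_le_iff.1 h1 with h2 | h2
    · apply le_max_of_le_left
      exact zpow_le_zpow_right₀ hq.le (by omega)
    · apply le_max_of_le_right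
      exact zpow_le_zpow_right₀ hq.le (by omega)
  int r hr := by
    have hq := one_lt_card (F := F)
    have h0 : emb F r ≠ 0 := by
      intro h
      apply hr
      apply emb_injective
      rw [h, map_zero]
    rw [absv_of_ne h0, order_emb hr, neg_neg, zpow_natCast]
    exact one_le_pow₀ hq.le

lemma absv_emb {r : F[X]} (hr : r ≠ 0) : absv (emb F r) = (Fintype.card F : ℝ) ^ r.natDegree := by
  have h0 : emb F r ≠ 0 := by
    intro h
    apply hr
    apply emb_injective
    rw [h, map_zero]
  rw [absv_of_ne h0, order_emb hr, neg_neg, zpow_natCast]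

end absv

section mahler

variable (F : Type*) [Field F] (Q : ℕ)

/-- the partial sum `T ^ (-1) + T ^ (-Q) + ... + T ^ (-Q ^ J)` -/
noncomputable def psum (J : ℕ) : LaurentSeries F :=
  ∑ j ∈ Finset.range (J + 1), HahnSeries.single ((Q ^ j : ℕ) : ℤ) (1 : F)

open Classical in
/-- the series `T ^ (-1) + T ^ (-Q) + T ^ (-Q ^ 2) + ...` -/
noncomputable def xi : LaurentSeries F :=
  HahnSeries.ofPowerSeries ℤ F (PowerSeries.mk fun m => if ∃ j, m = Q ^ j then 1 else 0)

variable {F Q}

open Classical in
lemma coeff_psum (hQ : 2 ≤ Q) (J : ℕ) (m : ℤ) :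
    (psum F Q J).coeff m = if ∃ j ≤ J, m = ((Q ^ j : ℕ) : ℤ) then 1 else 0 := by
  induction J with
  | zero =>
    unfold psum
    simp [HahnSeries.coeff_single]
  | succ J ih =>
    have : psum F Q (J + 1) = psum F Q J + HahnSeries.single ((Q ^ (J + 1) : ℕ) : ℤ) (1 : F) := by
      unfold psum
      rw [Finset.sum_range_succ]
    rw [this, HahnSeries.coeff_add, ih, HahnSeries.coeff_single]
    by_cases h1 : m = ((Q ^ (J + 1) : ℕ) : ℤ)
    · rw [if_pos h1, if_neg, if_pos ⟨J + 1, le_rfl, h1⟩, zero_add]
      rintro ⟨j, hj, hm⟩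
      rw [h1] at hm
      have h2 : Q ^ (J + 1) = Q ^ j := by exact_mod_cast hm
      have := Nat.pow_right_injective hQ h2
      omega
    · rw [if_neg h1, add_zero]
      congr 1
      apply propext
      constructor
      · rintro ⟨j, hj, hm⟩; exact ⟨j, by omega, hm⟩
      · rintro ⟨j, hj, hm⟩
        refine ⟨j, ?_, hm⟩
        by_contra hc
        have : j = J + 1 := by omega
        subst this
        exact h1 hm

open Classical in
lemma coeff_xi (m : ℤ) :
    (xi F Q).coeff m = if ∃ j : ℕ, m = ((Q ^ j : ℕ) : ℤ) then 1 else 0 := by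
  unfold xi
  by_cases hm : 0 ≤ m
  · obtain ⟨n, rfl⟩ := Int.eq_ofNat_of_zero_le hm
    rw [HahnSeries.ofPowerSeries_apply_coeff, PowerSeries.coeff_mk]
    congr 1
    apply propext
    constructor
    · rintro ⟨j, hj⟩; exact ⟨j, by rw [hj]⟩
    · rintro ⟨j, hj⟩; exact ⟨j, by exact_mod_cast hj⟩
  · rw [if_neg]
    · rw [HahnSeries.ofPowerSeries_apply, HahnSeries.embDomain_of_notMem_range]
      rintro ⟨n, hn⟩
      apply hm
      rw [← hn]
      exact Int.natCast_nonneg n
    · rintro ⟨j, hj⟩
      apply hm
      rw [hj]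
      exact Int.natCast_nonneg _

lemma order_xi_sub (hQ : 2 ≤ Q) (J : ℕ) :
    xi F Q - psum F Q J ≠ 0 ∧ (xi F Q - psum F Q J).order = ((Q ^ (J + 1) : ℕ) : ℤ) := by
  classical
  have hc : (xi F Q - psum F Q J).coeff ((Q ^ (J + 1) : ℕ) : ℤ) = 1 := by
    rw [HahnSeries.coeff_sub, coeff_xi, coeff_psum hQ, if_pos ⟨J + 1, rfl⟩, if_neg, sub_zero]
    rintro ⟨j, hj, hm⟩
    have h2 : Q ^ (J + 1) = Q ^ j := by exact_mod_cast hm
    have := Nat.pow_right_injective hQ h2
    omega
  have h0 : xi F Q - psum F Q J ≠ 0 := by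
    intro h
    rw [h, HahnSeries.coeff_zero] at hc
    exact zero_ne_one hc
  refine ⟨h0, le_antisymm ?_ ?_⟩
  · apply HahnSeries.order_le_of_coeff_ne_zero
    rw [hc]; exact one_ne_zero
  · by_contra hcon
    push Not at hcon
    have h1 := HahnSeries.coeff_order_eq_zero.not.2 h0
    apply h1
    rw [HahnSeries.coeff_sub, coeff_xi, coeff_psum hQ, sub_eq_zero]
    congr 1
    apply propext
    constructor
    · rintro ⟨j, hj⟩
      refine ⟨j, ?_, hj⟩
      rw [hj] at hcon
      have h2 : Q ^ j < Q ^ (J + 1) := by exact_mod_cast hcon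
      have := (Nat.pow_lt_pow_iff_right (by omega : 1 < Q)).1 h2
      omega
    · rintro ⟨j, _, hj⟩; exact ⟨j, hj⟩

/-- the numerator of the partial sum -/
noncomputable def num (F : Type*) [Field F] (Q J : ℕ) : F[X] :=
  ∑ j ∈ Finset.range (J + 1), monomial (Q ^ J - Q ^ j) (1 : F)

lemma psum_eq (hQ : 2 ≤ Q) (J : ℕ) :
    psum F Q J = emb F (num F Q J) / emb F (X ^ (Q ^ J)) := by
  have h1 : emb F (X ^ (Q ^ J)) ≠ 0 := by
    intro h
    have : (X ^ (Q ^ J) : F[X]) = 0 := emb_injective (by rw [h, map_zero])
    exact pow_ne_zero _ X_ne_zero this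
  rw [eq_div_iff h1]
  unfold psum num
  rw [map_sum, Finset.sum_mul]
  apply Finset.sum_congr rfl
  intro j hj
  rw [X_pow_eq_monomial, emb_monomial, emb_monomial, HahnSeries.single_mul_single, mul_one]
  congr 1
  have h2 : Q ^ j ≤ Q ^ J := Nat.pow_le_pow_right (by omega) (by
    rw [Finset.mem_range] at hj; omega)
  rw [Nat.cast_sub h2]
  ring_nf

lemma isCoprime_num (hQ : 2 ≤ Q) (J : ℕ) : IsCoprime (X ^ (Q ^ J) : F[X]) (num F Q J) := by
  apply IsCoprime.pow_left
  rw [Polynomial.irreducible_X.coprime_iff_not_dvd, X_dvd_iff]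
  unfold num
  rw [finsetSum_coeff, Finset.sum_range_succ, Finset.sum_eq_zero]
  · simp
  · intro j hj
    rw [coeff_monomial, if_neg]
    have h2 : Q ^ j < Q ^ J := Nat.pow_lt_pow_right (by omega) (Finset.mem_range.1 hj)
    omega

end mahler

end Pool.Agent.Q270.Ufs
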